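import Pool.Agent.W508.NS.Plan

/-!
# Additional statements
-/

open MeasureTheory Topology Set

namespace Pool.W508.NS

universe u

/-- NS-LIFTC: two `K`-invariant measures with the same image in the quotient are equal
(the core of `S_liftU`) -/
def S_liftC : Prop :=
  ∀ (K N N' : Type u) [Group K] [TopologicalSpace K] [IsTopologicalGroup K]
    [CompactSpace K] [T2Space K]
    [TopologicalSpace N] [CompactSpace N] [T2Space N] [SecondCountableTopology N]
    [MeasurableSpace N] [BorelSpace N]
    [TopologicalSpace N'] [CompactSpace N'] [T2Space N'] [SecondCountableTopology N']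
    [MeasurableSpace N'] [BorelSpace N']
    [MulAction K N] [ContinuousSMul K N] (q : N → N') (E : Set N) (μ ν : Measure N),
    Continuous q → IsClosed E →
    (∀ x ∈ E, ∀ k : K, k • x ∈ E) →
    (∀ x ∈ E, ∀ y ∈ E, q x = q y ↔ ∃ k : K, y = k • x) →
    IsInvOn (acts K N) E μ → IsInvOn (acts K N) E ν → μ.map q = ν.map q → μ = ν

end Pool.W508.NS
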