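import Pool.Agent.W508.NS.Plan

open MeasureTheory Topology Set

namespace Pool.W508.NS

universe u

theorem main_baire : S_baire.{u} := by
  intro n G N _ _ _ _ _ _ _ y
  set Y : Set N := closure (MulAction.orbit G y) with hY
  have hYG : ∀ y' ∈ Y, ∀ g : G, g • y' ∈ Y := by
    intro y' hy g
    have h1 : MapsTo (fun y : N => g • y) (MulAction.orbit G y) (MulAction.orbit G y) := by
      rintro _ ⟨h, rfl⟩
      exact ⟨g * h, by simp [mul_smul]⟩
    exact h1.closure (continuous_const_smul g) hy
  have hyY : y ∈ Y := subset_closure (MulAction.mem_orbit_self y)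
  haveI : CompactSpace Y := isCompact_iff_compactSpace.1 isClosed_closure.isCompact
  haveI : Nonempty Y := ⟨⟨y, hyY⟩⟩
  let O : Set (Cube n → N) → Set Y := fun U =>
    {y' | ∃ h : HK0 n G, (h • (fun _ => (y' : N)) : Cube n → N) ∈ U}
  have hO : ∀ U, IsOpen U → IsOpen (O U) := by
    intro U hU
    have h1 : O U = ⋃ h : HK0 n G, (fun y' : Y => (h • (fun _ => (y' : N)) : Cube n → N)) ⁻¹' U := by
      ext y'
      simp [O]
    rw [h1]
    refine isOpen_iUnion fun h => hU.preimage ?_
    exact (continuous_const_smul h).comp (continuous_pi fun _ => continuous_subtype_val)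
  have hB := TopologicalSpace.isBasis_countableBasis (Cube n → N)
  have hBc := TopologicalSpace.countable_countableBasis (Cube n → N)
  have hdense : Dense (⋂ U ∈ TopologicalSpace.countableBasis (Cube n → N), (frontier (O U))ᶜ) := by
    apply dense_biInter_of_isOpen
    · intro U _
      exact isClosed_frontier.isOpen_compl
    · exact hBc
    · intro U hU
      rw [← interior_eq_empty_iff_dense_compl, ← frontier_compl]
      exact interior_frontier (hO U (hB.isOpen hU)).isClosed_compl
  obtain ⟨y0, hy0⟩ := hdense.nonempty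
  refine ⟨y0, y0.2, ?_⟩
  intro c hc hcv
  by_contra hcon
  obtain ⟨U, hUB, hcU, hUd⟩ := hB.exists_subset_of_mem_open
    (show c ∈ (closure (MulAction.orbit (HK0 n G) (fun _ => (y0 : N) : Cube n → N)))ᶜ from hcon)
    isClosed_closure.isOpen_compl
  have h0 : y0 ∉ O U := by
    rintro ⟨h, hh⟩
    exact hUd hh (subset_closure ⟨h, rfl⟩)
  have h1 : y0 ∉ closure (O U) := by
    intro h1
    have h2 : y0 ∉ frontier (O U) := by
      have := mem_iInter₂.1 hy0 U hUB
      exact this
    apply h2
    rw [frontier, (hO U (hB.isOpen hUB)).interior_eq]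
    exact ⟨h1, h0⟩
  -- an open set `W` of `N`
  obtain ⟨W, hWo, hWe⟩ := isOpen_induced_iff.1 (isClosed_closure (s := O U)).isOpen_compl
  have hyW : (y0 : N) ∈ W := by
    have : y0 ∈ Subtype.val ⁻¹' W := by
      rw [hWe]; exact h1
    exact this
  have hopen : IsOpen (U ∩ (fun e : Cube n → N => e (v0 n)) ⁻¹' W) :=
    (hB.isOpen hUB).inter (hWo.preimage (continuous_apply _))
  have hcm : c ∈ U ∩ (fun e : Cube n → N => e (v0 n)) ⁻¹' W := by
    refine ⟨hcU, ?_⟩
    show c (v0 n) ∈ W
    rw [hcv]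
    exact hyW
  obtain ⟨e, ⟨heU, heW⟩, h, rfl⟩ := mem_closure_iff.1 hc _ hopen hcm
  -- decompose `h`
  set g : G := (h : Cube n → G) (v0 n) with hg
  have hconst : (fun _ => g : Cube n → G) ∈ HK n G := Subgroup.subset_closure (Or.inl ⟨g, rfl⟩)
  let f : HK0 n G := ⟨(h : Cube n → G) * (fun _ => g)⁻¹, mul_mem h.2 (inv_mem hconst), by
    simp [hg]⟩
  have hgy : g • y ∈ Y := hYG y hyY g
  have heq : (h • (fun _ => y : Cube n → N)) = f • (fun _ => g • y : Cube n → N) := by
    funext v
    show (h : Cube n → G) v • y = ((h : Cube n → G) v * g⁻¹) • (g • y)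
    rw [mul_smul, inv_smul_smul]
  have h5 : (⟨g • y, hgy⟩ : Y) ∈ O U := by
    refine ⟨f, ?_⟩
    show f • (fun _ => g • y : Cube n → N) ∈ U
    rw [← heq]
    exact heU
  have h6 : (⟨g • y, hgy⟩ : Y) ∈ Subtype.val ⁻¹' W := heW
  rw [hWe] at h6
  exact h6 (subset_closure h5)

end Pool.W508.NS
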