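import Pool.Agent.W508.NS.Plan

open MeasureTheory Topology Set

namespace Pool.W508.NS

universe u

/-- real nonnegative version -/
theorem const_real {N : Type u} [MeasurableSpace N] (𝒯 : Set (N → N)) (E : Set N) (μ : Measure N)
    (hT : ∀ t ∈ 𝒯, Measurable t) (hμ : IsInvOn 𝒯 E μ) (hU : AtMostOne 𝒯 E)
    (g : N → ℝ) (hg : Measurable g) (hg0 : ∀ x, 1 ≤ g x) (B : ℝ) (hgB : ∀ x, g x ≤ B)
    (hinv : ∀ t ∈ 𝒯, ∀ᵐ x ∂μ, g (t x) = g x) : ∃ c : ℝ, ∀ᵐ x ∂μ, g x = c := by
  haveI := hμ.prob
  set G : N → ENNReal := fun x => ENNReal.ofReal (g x) with hG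
  have hGm : Measurable G := hg.ennreal_ofReal
  set I : ENNReal := ∫⁻ x, G x ∂μ with hI
  have hI0 : I ≠ 0 := by
    have h1 : (1 : ENNReal) ≤ I := by
      calc (1 : ENNReal) = ∫⁻ _, 1 ∂μ := by simp
        _ ≤ I := by
          apply lintegral_mono
          intro x
          show (1 : ENNReal) ≤ ENNReal.ofReal (g x)
          rw [← ENNReal.ofReal_one]
          exact ENNReal.ofReal_le_ofReal (hg0 x)
    exact (lt_of_lt_of_le zero_lt_one h1).ne'
  have hItop : I ≠ ⊤ := by
    have h1 : I ≤ ∫⁻ _, ENNReal.ofReal B ∂μ := by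
      apply lintegral_mono
      intro x
      exact ENNReal.ofReal_le_ofReal (hgB x)
    have h2 : ∫⁻ _, ENNReal.ofReal B ∂μ = ENNReal.ofReal B := by simp
    exact ne_top_of_le_ne_top (by rw [h2]; exact ENNReal.ofReal_ne_top) h1
  set ν : Measure N := I⁻¹ • μ.withDensity G with hν
  have hνinv : IsInvOn 𝒯 E ν := by
    refine ⟨⟨?_⟩, ?_, ?_⟩
    · rw [hν, Measure.smul_apply, withDensity_apply _ MeasurableSet.univ, Measure.restrict_univ,
        smul_eq_mul]
      exact ENNReal.inv_mul_cancel hI0 hItop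
    · rw [hν, Measure.smul_apply, smul_eq_mul]
      have : μ.withDensity G Eᶜ = 0 := withDensity_absolutelyContinuous μ G hμ.supp
      rw [this, mul_zero]
    · intro t ht
      rw [hν, Measure.map_smul]
      congr 1
      ext A hA
      rw [Measure.map_apply (hT t ht) hA, withDensity_apply _ (hT t ht hA),
        withDensity_apply _ hA]
      conv_rhs => rw [← hμ.inv t ht]
      rw [setLIntegral_map hA hGm (hT t ht)]
      apply lintegral_congr_ae
      apply ae_restrict_of_ae
      filter_upwards [hinv t ht] with x hx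
      show ENNReal.ofReal (g x) = ENNReal.ofReal (g (t x))
      rw [hx]
  have heq : ν = μ := hU ν μ hνinv hμ
  have h1 : μ.withDensity (fun x => I⁻¹ * G x) = μ.withDensity (fun _ => 1) := by
    have h0 : μ.withDensity (fun _ => (1 : ENNReal)) = μ := withDensity_one
    rw [h0]
    conv_rhs => rw [← heq]
    rw [hν, ← withDensity_smul _ hGm]
    rfl
  have h2 : (fun x => I⁻¹ * G x) =ᵐ[μ] fun _ => 1 := by
    refine withDensity_eq_iff_of_sigmaFinite ?_ ?_ |>.1 h1
    · exact (hGm.const_mul _).aemeasurable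
    · exact aemeasurable_const
  refine ⟨I.toReal, ?_⟩
  filter_upwards [h2] with x hx
  have h3 : G x = I := by
    have h4 : I * (I⁻¹ * G x) = I * 1 := by
      rw [show I⁻¹ * G x = 1 from hx]
    rwa [← mul_assoc, ENNReal.mul_inv_cancel hI0 hItop, one_mul, mul_one] at h4
  have h5 : (G x).toReal = g x := ENNReal.toReal_ofReal (by linarith [hg0 x])
  rw [← h5, h3]

theorem main_const : S_const.{u} := by
  intro N _ 𝒯 E μ hT hμ hU f hf ⟨B, hB⟩ hinv
  haveI := hμ.prob
  obtain ⟨c1, hc1⟩ := const_real 𝒯 E μ hT hμ hU (fun x => (f x).re + (|B| + 1))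
    ((Complex.measurable_re.comp hf).add measurable_const)
    (fun x => by
      have h1 := (abs_le.1 (Complex.abs_re_le_norm (f x))).1
      have h2 := hB x
      have h3 := le_abs_self B
      linarith)
    (2 * |B| + 1)
    (fun x => by
      have h1 := (abs_le.1 (Complex.abs_re_le_norm (f x))).2
      have h2 := hB x
      have h3 := le_abs_self B
      linarith)
    (fun t ht => by
      filter_upwards [hinv t ht] with x hx
      rw [hx])
  obtain ⟨c2, hc2⟩ := const_real 𝒯 E μ hT hμ hU (fun x => (f x).im + (|B| + 1))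
    ((Complex.measurable_im.comp hf).add measurable_const)
    (fun x => by
      have h1 := (abs_le.1 (Complex.abs_im_le_norm (f x))).1
      have h2 := hB x
      have h3 := le_abs_self B
      linarith)
    (2 * |B| + 1)
    (fun x => by
      have h1 := (abs_le.1 (Complex.abs_im_le_norm (f x))).2
      have h2 := hB x
      have h3 := le_abs_self B
      linarith)
    (fun t ht => by
      filter_upwards [hinv t ht] with x hx
      rw [hx])
  refine ⟨⟨c1 - (|B| + 1), c2 - (|B| + 1)⟩, ?_⟩
  filter_upwards [hc1, hc2] with x h1 h2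
  apply Complex.ext
  · simp only
    linarith
  · simp only
    linarith

end Pool.W508.NS
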