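import Pool.Agent.W508.NS.Plan

open MeasureTheory Topology Set

namespace Pool.W508.NS

universe u

theorem isClosed_Kalt (n : ℕ) (K : Type*) [CommGroup K] [TopologicalSpace K]
    [IsTopologicalGroup K] [T2Space K] :
    IsClosed ((Kalt n K : Subgroup (Cube n → K)) : Set (Cube n → K)) := by
  have : ((Kalt n K : Subgroup (Cube n → K)) : Set (Cube n → K)) = {z | altProd z = 1} := rfl
  rw [this]
  refine isClosed_eq ?_ continuous_const
  unfold altProd
  fun_prop

theorem main_E : S_E.{u} := by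
  intro n G K N N' _ _ _ _ _ _ _ _ _ _ _ _ _ _ _ _ _ _ π x hπc hπG hcomm hπK hKX hKfib hcube
  haveI : CompactSpace (Kalt n K) := isCompact_iff_compactSpace.1 (isClosed_Kalt n K).isCompact
  set X : Set N := closure (MulAction.orbit G x) with hX
  set Cl : Set (Cube n → N) :=
    closure (MulAction.orbit (HK n G) (fun _ => x : Cube n → N)) with hCl
  have hmem : ∀ e : Cube n → N, e ∈ EE n G K x ↔ ∃ ζ : Kalt n K, ∃ c ∈ Cl, e = ζ • c :=
    fun e => Iff.rfl
  have hClX : ∀ c ∈ Cl, ∀ v, c v ∈ X := by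
    intro c hc v
    have h1 : MapsTo (fun c : Cube n → N => c v)
        (MulAction.orbit (HK n G) (fun _ => x : Cube n → N)) (MulAction.orbit G x) := by
      rintro _ ⟨h, rfl⟩
      exact ⟨(h : Cube n → G) v, rfl⟩
    exact h1.closure (continuous_apply v) hc
  have hClH : ∀ c ∈ Cl, ∀ h : HK n G, h • c ∈ Cl := by
    intro c hc h
    have h1 : MapsTo (fun c : Cube n → N => h • c)
        (MulAction.orbit (HK n G) (fun _ => x : Cube n → N))
        (MulAction.orbit (HK n G) (fun _ => x : Cube n → N)) := by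
      rintro _ ⟨h', rfl⟩
      exact ⟨h * h', by simp [mul_smul]⟩
    exact h1.closure (continuous_const_smul h) hc
  have hcommH : ∀ (h : HK n G) (ζ : Kalt n K) (e : Cube n → N), h • ζ • e = ζ • h • e := by
    intro h ζ e
    funext v
    exact hcomm _ _ _
  have hq : Continuous (fun (e : Cube n → N) (v : Cube n) => π (e v)) :=
    continuous_pi fun v => hπc.comp (continuous_apply v)
  have hqζ : ∀ (ζ : Kalt n K) (c : Cube n → N), (fun v => π ((ζ • c) v)) = fun v => π (c v) := by
    intro ζ c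
    funext v
    exact hπK _ _
  refine ⟨?_, ?_, ?_, ?_, ?_, ?_⟩
  · have h1 : EE n G K x = (fun p : Kalt n K × (Cube n → N) => p.1 • p.2) '' (univ ×ˢ Cl) := by
      ext e
      rw [hmem]
      constructor
      · rintro ⟨ζ, c, hc, rfl⟩
        exact ⟨(ζ, c), ⟨mem_univ _, hc⟩, rfl⟩
      · rintro ⟨⟨ζ, c⟩, ⟨_, hc⟩, rfl⟩
        exact ⟨ζ, c, hc, rfl⟩
    rw [h1]
    apply IsCompact.isClosed
    apply IsCompact.image
    · exact isCompact_univ.prod isClosed_closure.isCompact
    · exact continuous_fst.smul continuous_snd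
  · rintro e ⟨ζ, c, hc, rfl⟩ v
    exact hKX _ (hClX c hc v) _
  · apply Subset.antisymm
    · rintro _ ⟨e, ⟨ζ, c, hc, rfl⟩, rfl⟩
      simp only [hqζ]
      have h1 : MapsTo (fun (e : Cube n → N) (v : Cube n) => π (e v))
          (MulAction.orbit (HK n G) (fun _ => x : Cube n → N))
          (MulAction.orbit (HK n G) (fun _ => π x : Cube n → N')) := by
        rintro _ ⟨h, rfl⟩
        refine ⟨h, ?_⟩
        funext v
        exact (hπG _ _).symm
      exact h1.closure hq hc
    · apply closure_minimal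
      · rintro _ ⟨h, rfl⟩
        refine ⟨h • (fun _ => x), ⟨1, h • (fun _ => x), subset_closure ⟨h, rfl⟩, by simp⟩, ?_⟩
        funext v
        exact hπG _ _
      · -- the image is compact
        have h1 : (fun (e : Cube n → N) (v : Cube n) => π (e v)) '' (EE n G K x) =
            (fun (e : Cube n → N) (v : Cube n) => π (e v)) '' Cl := by
          apply Subset.antisymm
          · rintro _ ⟨e, ⟨ζ, c, hc, rfl⟩, rfl⟩
            exact ⟨c, hc, (hqζ ζ c).symm⟩
          · rintro _ ⟨c, hc, rfl⟩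
            exact ⟨c, ⟨1, c, hc, by simp⟩, rfl⟩
        rw [h1]
        exact (isClosed_closure.isCompact.image hq).isClosed
  · rintro e ⟨ζ, c, hc, rfl⟩ k
    exact ⟨k * ζ, c, hc, by rw [mul_smul]⟩
  · rintro e ⟨ζ, c, hc, rfl⟩ h
    exact ⟨ζ, h • c, hClH c hc h, hcommH h ζ c⟩
  · rintro e ⟨ζ, c, hc, rfl⟩ e' ⟨ζ', c', hc', rfl⟩
    constructor
    · intro h
      rw [hqζ, hqζ] at h
      have h1 : ∀ v, ∃ k : K, c' v = k • c v := fun v =>
        hKfib _ (hClX c hc v) _ (hClX c' hc' v) (congrFun h v)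
      choose z hz using h1
      have h2 : altProd z = 1 := hcube c c' z hc hc' hz
      have h3 : c' = (⟨z, h2⟩ : Kalt n K) • c := by
        funext v
        exact hz v
      refine ⟨ζ' * ⟨z, h2⟩ * ζ⁻¹, ?_⟩
      rw [mul_smul, mul_smul, inv_smul_smul, ← h3]
    · rintro ⟨k, hk⟩
      rw [hk]
      exact (hqζ k (ζ • c)).symm

end Pool.W508.NS
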