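import Pool.Agent.W508.NS.Ext2

open MeasureTheory Topology Set

namespace Pool.W508.NS

universe u

/-- if all averages over subsets are within `δ` of `L` then `f` is within `2δ` of `L` a.e. -/
theorem ae_close {N : Type*} [MeasurableSpace N] (m : Measure N) [IsProbabilityMeasure m]
    (f : N → ℂ) (hf : Measurable f) (hf1 : ∀ x, ‖f x‖ ≤ 1) (U : Set N) (hU : MeasurableSet U)
    (L : ℂ) (δ : ℝ)
    (h : ∀ V, MeasurableSet V → V ⊆ U → m V ≠ 0 → ‖(m.real V)⁻¹ • ∫ x in V, f x ∂m - L‖ ≤ δ) :
    ∀ᵐ x ∂m, x ∈ U → ‖f x - L‖ ≤ 2 * δ := by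
  have hfi : Integrable f m :=
    Integrable.of_bound hf.aestronglyMeasurable 1 (Filter.Eventually.of_forall hf1)
  have hV : ∀ V, MeasurableSet V → V ⊆ U → ‖∫ x in V, (f x - L) ∂m‖ ≤ δ * m.real V := by
    intro V hVm hVU
    by_cases h0 : m V = 0
    · have h1 : m.real V = 0 := by simp [Measure.real, h0]
      rw [h1, mul_zero, Measure.restrict_eq_zero.2 h0]
      simp
    · have h1 : 0 < m.real V := by
        rw [Measure.real]; exact ENNReal.toReal_pos h0 (measure_ne_top _ _)
      have h2 := h V hVm hVU h0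
      rw [integral_sub hfi.integrableOn (integrable_const _), setIntegral_const]
      have h3 : ∫ x in V, f x ∂m - m.real V • L =
          m.real V • ((m.real V)⁻¹ • ∫ x in V, f x ∂m - L) := by
        rw [smul_sub, smul_smul, mul_inv_cancel₀ h1.ne', one_smul]
      rw [h3, norm_smul, Real.norm_of_nonneg h1.le, mul_comm]
      exact mul_le_mul_of_nonneg_right h2 h1.le
  -- a general real statement
  have key : ∀ (T : ℂ →L[ℝ] ℝ), ‖T‖ ≤ 1 → ∀ᵐ x ∂(m.restrict U), T (f x - L) ≤ δ := by
    intro T hT
    have h1 : 0 ≤ᵐ[m.restrict U] fun x => δ - T (f x - L) := by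
      apply ae_nonneg_restrict_of_forall_setIntegral_nonneg_inter
      · apply Integrable.integrableOn
        exact (integrable_const _).sub (T.integrable_comp (hfi.sub (integrable_const _)))
      · intro s hs _
        have h2 := hV (s ∩ U) (hs.inter hU) inter_subset_right
        have hint : Integrable (fun x => f x - L) (m.restrict (s ∩ U)) :=
          (hfi.sub (integrable_const _)).integrableOn
        rw [integral_sub (integrable_const _) (T.integrable_comp hint),
          T.integral_comp_comm hint, setIntegral_const, smul_eq_mul]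
        have h3 : T (∫ x in s ∩ U, (f x - L) ∂m) ≤ ‖∫ x in s ∩ U, (f x - L) ∂m‖ := by
          refine (le_abs_self _).trans ?_
          rw [← Real.norm_eq_abs]
          refine (T.le_opNorm _).trans ?_
          nlinarith [norm_nonneg (∫ x in s ∩ U, (f x - L) ∂m)]
        linarith
    filter_upwards [h1] with x hx
    have : 0 ≤ δ - T (f x - L) := hx
    linarith
  have hre := key Complex.reCLM (by rw [Complex.reCLM_norm])
  have hre' := key (-Complex.reCLM) (by rw [norm_neg, Complex.reCLM_norm])
  have him := key Complex.imCLM (by rw [Complex.imCLM_norm])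
  have him' := key (-Complex.imCLM) (by rw [norm_neg, Complex.imCLM_norm])
  have hall : ∀ᵐ x ∂(m.restrict U), ‖f x - L‖ ≤ 2 * δ := by
    filter_upwards [hre, hre', him, him'] with x h1 h2 h3 h4
    simp only [Complex.reCLM_apply, Complex.imCLM_apply, _root_.neg_apply] at h1 h2 h3 h4
    have h5 : |(f x - L).re| ≤ δ := abs_le.2 ⟨by linarith, h1⟩
    have h6 : |(f x - L).im| ≤ δ := abs_le.2 ⟨by linarith, h3⟩
    refine (Complex.norm_le_abs_re_add_abs_im _).trans ?_
    linarith
  rwa [ae_restrict_iff' hU] at hall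

theorem main (hconst : S_const.{u}) (hweak : S_weak.{u}) : S_ext.{u} := by
  classical
  intro n G K N _ _ _ _ _ _ _ _ _ _ _ _ _ _ _ _ X E m M x0 χ f hn hXcl hEcl hEX hmin hXG hXK
    hm hmU hM hMU hx0 hM0 hf hf1 hf2 hf3 hf4
  have hXm : MeasurableSet X := hXcl.measurableSet
  obtain ⟨θ, hθ1, hθ⟩ := ext_delta hconst hn X E m M χ f hXm hEX hm hmU hM hMU hf hf1 hf2 hf3 hf4
  haveI := hm.prob
  haveI := hM.prob
  -- the key estimate
  have key : ∀ δ : ℝ, 0 < δ → ∃ L : ℂ, ∀ᵐ x ∂m, ‖f x - L‖ ≤ 2 * δ := by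
    intro δ hδ
    have hcard : (0 : ℝ) < (Finset.univ.erase (v0 n)).card + 1 := by positivity
    obtain ⟨h, hhc, hh1, hhε⟩ := approx m f hf hf1 (δ / 4 / ((Finset.univ.erase (v0 n)).card + 1))
      (by positivity)
    obtain ⟨U0, hU0, hU0'⟩ := hweak (Cube n → N) N
      (acts (HK0 n G) (Cube n → N) ∪ acts (Kalt0 n K) (Cube n → N)) E (fun e => e (v0 n)) x0
      (by
        rintro t (⟨g, rfl⟩ | ⟨k, rfl⟩)
        · exact continuous_const_smul g
        · exact continuous_const_smul k)
      hEcl (continuous_apply _) hM0 (Psi h) (continuous_Psi h hhc) (δ / 2) (half_pos hδ)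
    obtain ⟨U, hUU0, hUo, hxU⟩ := mem_nhds_iff.1 hU0
    have hUm : MeasurableSet U := hUo.measurableSet
    -- finite cover
    have hcov : X ⊆ ⋃ g : G, (fun x => g • x) ⁻¹' U := by
      intro x hx
      have h1 : x0 ∈ closure (MulAction.orbit G x) := hmin x hx hx0
      obtain ⟨y, hyU, g, rfl⟩ := mem_closure_iff.1 h1 U hUo hxU
      exact mem_iUnion.2 ⟨g, hyU⟩
    obtain ⟨F, hF⟩ := hXcl.isCompact.elim_finite_subcover _
      (fun g => hUo.preimage (continuous_const_smul g)) hcov
    have hmg : ∀ g : G, m.map (fun x => g • x) = m := fun g => hm.inv _ (Or.inl ⟨g, rfl⟩)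
    have hmU0 : m U ≠ 0 := by
      intro h0
      have h1 : m X = 0 := by
        refine measure_mono_null hF ((measure_biUnion_null_iff F.countable_toSet).2 ?_)
        intro g _
        rw [← Measure.map_apply (continuous_const_smul g).measurable hUm, hmg g]
        exact h0
      have h2 : m univ = 0 := by
        rw [← union_compl_self X]
        exact measure_union_null h1 hm.supp
      rw [measure_univ] at h2
      exact one_ne_zero h2
    -- comparison of averages
    have happ : ∀ V, MeasurableSet V → V ⊆ U → m V ≠ 0 →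
        ‖∫ e, Psi f e ∂(ProbabilityTheory.cond M ((fun e => e (v0 n)) ⁻¹' V)) -
          ∫ e, Psi h e ∂(ProbabilityTheory.cond M ((fun e => e (v0 n)) ⁻¹' V))‖ ≤ δ / 4 := by
      intro V hV hVU hmV
      have hc := cond_inv hn X E m M hXm hEX hm hmU hM V hV hmV
      haveI := hc.prob
      set P := ProbabilityTheory.cond M ((fun e => e (v0 n)) ⁻¹' V) with hP
      have hmarg : ∀ w, w ≠ v0 n → P.map (fun e => e w) = m := fun w hw =>
        marg0 hn X (E ∩ (fun e => e (v0 n)) ⁻¹' V) m (fun e he v => hEX e he.1 v) hXm hm hmU P hc w hw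
      have hi1 : Integrable (Psi f) P := Integrable.of_bound
        (measurable_Psi f hf).aestronglyMeasurable 1 (Filter.Eventually.of_forall (norm_Psi_le f hf1))
      have hi2 : Integrable (Psi h) P := Integrable.of_bound
        (continuous_Psi h hhc).measurable.aestronglyMeasurable 1
          (Filter.Eventually.of_forall (norm_Psi_le h hh1))
      have hi3 : ∀ w : Cube n, Integrable (fun e : Cube n → N => ‖f (e w) - h (e w)‖) P := by
        intro w
        apply Integrable.norm
        refine Integrable.of_bound ((hf.comp (measurable_pi_apply w)).sub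
          (hhc.measurable.comp (measurable_pi_apply w))).aestronglyMeasurable 2
          (Filter.Eventually.of_forall fun e => ?_)
        refine (norm_sub_le _ _).trans ?_
        have := hf1 (e w)
        have := hh1 (e w)
        linarith
      rw [← integral_sub hi1 hi2]
      refine (norm_integral_le_integral_norm _).trans ?_
      refine (integral_mono_of_nonneg (Filter.Eventually.of_forall fun e => norm_nonneg _)
        (integrable_finsetSum _ fun w _ => hi3 w)
        (Filter.Eventually.of_forall fun e => Psi_sub f h hf1 hh1 e)).trans ?_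
      rw [integral_finsetSum _ fun w _ => hi3 w]
      have h4 : ∀ w ∈ Finset.univ.erase (v0 n), ∫ e, ‖f (e w) - h (e w)‖ ∂P ≤
          δ / 4 / ((Finset.univ.erase (v0 n)).card + 1) := by
        intro w hw
        have hw' : w ≠ v0 n := Finset.ne_of_mem_erase hw
        refine le_trans (le_of_eq ?_) hhε
        conv_rhs => rw [← hmarg w hw']
        rw [integral_map (measurable_pi_apply w).aemeasurable]
        exact ((hf.sub hhc.measurable).norm).aestronglyMeasurable
      refine (Finset.sum_le_sum h4).trans ?_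
      rw [Finset.sum_const, nsmul_eq_mul]
      rw [mul_div_assoc', div_le_iff₀ hcard]
      nlinarith
    have havg := fun V hV => avg_eq hn X E m M hXm hEX hm hmU hM f hf θ hθ V hV
    have hcmp : ∀ V, MeasurableSet V → V ⊆ U → m V ≠ 0 →
        ‖(m.real V)⁻¹ • ∫ x in V, f x ∂m - (m.real U)⁻¹ • ∫ x in U, f x ∂m‖ ≤ δ := by
      intro V hV hVU hmV
      rw [havg V hV, havg U hUm, ← mul_sub, norm_mul]
      have h1 := happ V hV hVU hmV
      have h2 := happ U hUm le_rfl hmU0
      have hsub : ∀ W, W ⊆ U → MeasurableSet W → m W ≠ 0 →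
          IsInvOn (acts (HK0 n G) (Cube n → N) ∪ acts (Kalt0 n K) (Cube n → N))
            (E ∩ (fun e => e (v0 n)) ⁻¹' U0)
            (ProbabilityTheory.cond M ((fun e => e (v0 n)) ⁻¹' W)) := by
        intro W hW hWm hmW
        have hc := cond_inv hn X E m M hXm hEX hm hmU hM W hWm hmW
        refine ⟨hc.prob, measure_mono_null ?_ hc.supp, hc.inv⟩
        apply compl_subset_compl.2
        exact inter_subset_inter_right _ (preimage_mono (hW.trans hUU0))
      have h3 := hU0' _ _ (hsub V hVU hV hmV) (hsub U le_rfl hUm hmU0)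
      have h5 : ‖∫ e, Psi f e ∂(ProbabilityTheory.cond M ((fun e => e (v0 n)) ⁻¹' V)) -
          ∫ e, Psi f e ∂(ProbabilityTheory.cond M ((fun e => e (v0 n)) ⁻¹' U))‖ ≤ δ := by
        have h6 : ∀ a b c d : ℂ, ‖a - b‖ ≤ δ / 4 → ‖c - d‖ ≤ δ / 4 → ‖b - d‖ ≤ δ / 2 →
            ‖a - c‖ ≤ δ := by
          intro a b c d hab hcd hbd
          have h7 : a - c = (a - b) + (b - d) - (c - d) := by ring
          rw [h7]
          refine (norm_sub_le _ _).trans ?_
          have := norm_add_le (a - b) (b - d)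
          linarith
        exact h6 _ _ _ _ h1 h2 h3
      calc ‖θ‖ * _ ≤ 1 * δ := mul_le_mul hθ1 h5 (norm_nonneg _) zero_le_one
        _ = δ := one_mul _
    set L : ℂ := (m.real U)⁻¹ • ∫ x in U, f x ∂m with hL
    have hclose := ae_close m f hf hf1 U hUm L δ hcmp
    refine ⟨L, ?_⟩
    -- transport
    have h1 : ∀ g ∈ F, ∀ᵐ x ∂m, g • x ∈ U → ‖f x - L‖ ≤ 2 * δ := by
      intro g _
      have h2 : ∀ᵐ x ∂m, (g • x ∈ U → ‖f (g • x) - L‖ ≤ 2 * δ) := by
        have h3 := hclose
        rw [← hmg g] at h3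
        exact ae_of_ae_map (continuous_const_smul g).measurable.aemeasurable h3
      filter_upwards [h2, hf3 g] with x hx hx2 hgx
      rw [← hx2]
      exact hx hgx
    have h2 : ∀ᵐ x ∂m, ∀ g ∈ F, g • x ∈ U → ‖f x - L‖ ≤ 2 * δ :=
      (ae_ball_iff F.countable_toSet).2 h1
    have h3 : ∀ᵐ x ∂m, x ∈ X := by
      rw [ae_iff]
      exact hm.supp
    filter_upwards [h2, h3] with x hx hxX
    obtain ⟨g, hg, hgx⟩ := mem_iUnion₂.1 (hF hxX)
    exact hx g hg hgx
  -- conclusion
  intro k
  have hk : ∀ δ : ℝ, 0 < δ → ‖(χ k : ℂ) - 1‖ ≤ 4 * δ := by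
    intro δ hδ
    obtain ⟨L, hL⟩ := key δ hδ
    have hmk : m.map (fun x => k • x) = m := hm.inv _ (Or.inr ⟨k, rfl⟩)
    have h1 : ∀ᵐ x ∂m, ‖f (k • x) - L‖ ≤ 2 * δ := by
      have h3 := hL
      rw [← hmk] at h3
      exact ae_of_ae_map (continuous_const_smul k).measurable.aemeasurable h3
    obtain ⟨x, hx1, hx2, hx3⟩ := (hL.and (h1.and hf2)).exists
    rw [hf4] at hx2
    have h4 : ‖((χ k : ℂ) - 1) * f x‖ ≤ 4 * δ := by
      have h5 : ((χ k : ℂ) - 1) * f x = ((χ k : ℂ) * f x - L) - (f x - L) := by ring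
      rw [h5]
      refine (norm_sub_le _ _).trans ?_
      linarith
    rwa [norm_mul, hx3, mul_one] at h4
  have h0 : ‖(χ k : ℂ) - 1‖ ≤ 0 := by
    apply le_of_forall_pos_le_add
    intro ε hε
    have := hk (ε / 4) (by positivity)
    linarith
  have h1 : (χ k : ℂ) = 1 := by
    rw [← sub_eq_zero]
    exact norm_le_zero_iff.1 h0
  exact_mod_cast Subtype.ext h1

end Pool.W508.NS
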