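import Pool.Agent.W508.NS.Plan

open MeasureTheory Topology Set

namespace Pool.W508.NS

universe u

/-- every nonempty closed invariant subset of a compact space contains a minimal one -/
theorem exists_minimal {G N : Type*} [Group G] [TopologicalSpace N] [CompactSpace N] [T2Space N]
    [MulAction G N] [ContinuousConstSMul G N] (A : Set N) (hA : IsClosed A) (hne : A.Nonempty)
    (hG : ∀ x ∈ A, ∀ g : G, g • x ∈ A) :
    ∃ b ∈ A, ∀ y ∈ closure (MulAction.orbit G b), b ∈ closure (MulAction.orbit G y) := by
  let S : Set (Set N) := {B | IsClosed B ∧ B.Nonempty ∧ (∀ x ∈ B, ∀ g : G, g • x ∈ B)}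
  obtain ⟨B, hBA, hBmin⟩ := zorn_superset_nonempty S (by
    intro c hcS hc hcne
    refine ⟨⋂₀ c, ⟨isClosed_sInter fun s hs => (hcS hs).1, ?_, ?_⟩, fun s hs => sInter_subset_of_mem hs⟩
    · have : Nonempty c := hcne.to_subtype
      apply IsCompact.nonempty_sInter_of_directed_nonempty_isCompact_isClosed
      · intro a ha b hb
        rcases hc.total ha hb with h | h
        · exact ⟨a, ha, le_rfl, h⟩
        · exact ⟨b, hb, h, le_rfl⟩
      · exact fun s hs => (hcS hs).2.1
      · exact fun s hs => (hcS hs).1.isCompact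
      · exact fun s hs => (hcS hs).1
    · intro x hx g s hs
      exact (hcS hs).2.2 x (hx s hs) g) A ⟨hA, hne, hG⟩
  obtain ⟨⟨hBc, hBn, hBG⟩, hmin⟩ := hBmin
  obtain ⟨b, hb⟩ := hBn
  refine ⟨b, hBA hb, ?_⟩
  intro y hy
  have hsub : closure (MulAction.orbit G b) ⊆ B := by
    apply closure_minimal _ hBc
    rintro _ ⟨g, rfl⟩
    exact hBG b hb g
  have hyB : y ∈ B := hsub hy
  have h1 : closure (MulAction.orbit G y) ∈ S := by
    refine ⟨isClosed_closure, ⟨y, subset_closure (MulAction.mem_orbit_self y)⟩, ?_⟩
    intro x hx g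
    have h1 : MapsTo (fun x : N => g • x) (MulAction.orbit G y) (MulAction.orbit G y) := by
      rintro _ ⟨h, rfl⟩
      exact ⟨g * h, by simp [mul_smul]⟩
    exact h1.closure (continuous_const_smul g) hx
  have h2 : closure (MulAction.orbit G y) ⊆ B := by
    apply closure_minimal _ hBc
    rintro _ ⟨g, rfl⟩
    exact hBG y hyB g
  exact hmin h1 h2 hb

theorem main_min : S_min.{u} := by
  intro k
  induction k with
  | zero =>
    intro G N _ _ _ _ _ _ _ hT x y _
    have : Subsingleton N := hT
    rw [Subsingleton.elim x y]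
    exact subset_closure (MulAction.mem_orbit_self y)
  | succ k ih =>
    intro G N _ _ _ _ _ _ _ hT x y hy
    obtain ⟨N', _, _, _, _, _, _, Z, _, _, _, _, _, _, _, π, hπc, hπG, hπZ, hfree, hcomm, hcube,
      hT'⟩ := hT
    -- `closure (G x)` is minimal
    have hG : ∀ (w : N), ∀ x' ∈ closure (MulAction.orbit G w), ∀ g : G,
        g • x' ∈ closure (MulAction.orbit G w) := by
      intro w x' hx g
      have h1 : MapsTo (fun x : N => g • x) (MulAction.orbit G w) (MulAction.orbit G w) := by
        rintro _ ⟨h, rfl⟩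
        exact ⟨g * h, by simp [mul_smul]⟩
      exact h1.closure (continuous_const_smul g) hx
    have hZ : ∀ (z : Z) (w w' : N), w' ∈ closure (MulAction.orbit G w) →
        z • w' ∈ closure (MulAction.orbit G (z • w)) := by
      intro z w w' hw
      have h1 : MapsTo (fun x : N => z • x) (MulAction.orbit G w) (MulAction.orbit G (z • w)) := by
        rintro _ ⟨h, rfl⟩
        exact ⟨h, hcomm _ _ _⟩
      exact h1.closure (continuous_const_smul z) hw
    have hπcl : ∀ (w w' : N), w' ∈ closure (MulAction.orbit G w) →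
        π w' ∈ closure (MulAction.orbit G (π w)) := by
      intro w w' hw
      have h1 : MapsTo π (MulAction.orbit G w) (MulAction.orbit G (π w)) := by
        rintro _ ⟨h, rfl⟩
        exact ⟨h, (hπG _ _).symm⟩
      exact h1.closure hπc hw
    have himg : ∀ w : N, closure (MulAction.orbit G (π w)) ⊆ π '' closure (MulAction.orbit G w) := by
      intro w
      apply closure_minimal
      · rintro _ ⟨g, rfl⟩
        exact ⟨g • w, subset_closure ⟨g, rfl⟩, hπG _ _⟩
      · exact (isClosed_closure.isCompact.image hπc).isClosed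
    have htrans : ∀ a b c : N, b ∈ closure (MulAction.orbit G a) →
        c ∈ closure (MulAction.orbit G b) → c ∈ closure (MulAction.orbit G a) := by
      intro a b c hb hc
      refine closure_minimal ?_ isClosed_closure hc
      rintro _ ⟨g, rfl⟩
      exact hG a b hb g
    obtain ⟨b, hbx, hb⟩ := exists_minimal (G := G) (closure (MulAction.orbit G x)) isClosed_closure
      ⟨x, subset_closure (MulAction.mem_orbit_self x)⟩ (hG x)
    -- `π x ∈ π (closure (G b))`
    have h1 : π x ∈ closure (MulAction.orbit G (π b)) := ih G N' hT' _ _ (hπcl _ _ hbx)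
    obtain ⟨b', hb', hπb⟩ := himg b h1
    obtain ⟨z, hz⟩ := (hπZ b' x).1 hπb
    -- `x = z • b'`
    have hb'min : ∀ w ∈ closure (MulAction.orbit G b'), b' ∈ closure (MulAction.orbit G w) := by
      intro w hw
      exact htrans _ _ _ (hb w (htrans _ _ _ hb' hw)) hb'
    have h2 : z⁻¹ • y ∈ closure (MulAction.orbit G b') := by
      have := hZ z⁻¹ x y hy
      rwa [hz, inv_smul_smul] at this
    have h3 := hZ z _ _ (hb'min _ h2)
    rw [smul_inv_smul, ← hz] at h3
    exact h3

end Pool.W508.NS
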