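import Pool.Agent.W508.NS.NilProof

open MeasureTheory Topology Set

namespace Pool.W508.NS

universe u v

/-- a probability measure carried by a dense orbit closure: the invariant measure is Haar -/
theorem haar_unique (hPP : ∀ k, PP.{u} k) (hL : S_liftC.{u}) (k : ℕ) :
    ∀ (X : Type u) [TopologicalSpace X] [MeasurableSpace X]
    [BorelSpace X] (C : ∀ n, Set (Cube n → X)) (μ : Measure X),
    IsCompactNilspace C → IsStep k C → IsHaar k X C μ →
    ∀ (G : Type u) [Group G] [MulAction G X] [ContinuousConstSMul G X],
      (∀ g : G, IsTranslation C (fun x => g • x)) → ∀ x : X,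
      closure (MulAction.orbit G x) = univ → ∀ m : Measure X, IsInvOn (acts G X) univ m →
      m = μ := by
  induction k with
  | zero =>
    intro X _ _ _ C μ hC hst hμ G _ _ _ hG x hx m hm
    have hs : Subsingleton X := hμ.1
    have := hμ.2
    have := hm.prob
    ext A _
    rcases A.eq_empty_or_nonempty with h | ⟨a, ha⟩
    · rw [h]; simp
    · have : A = univ := by
        apply eq_univ_of_forall
        intro y
        rwa [Subsingleton.elim y a]
      rw [this, measure_univ, measure_univ]
  | succ k ih =>
    intro X _ _ _ C μ hC hst hμ0 G _ _ _ hG x hx m hm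
    have hT := tower_of_haar (k + 1) X C μ hC hst hμ0 G hG
    have hμ1 := hμ0
    obtain ⟨hμp, Y, _, _, _, D, π, Z, _, _, _, _, _, _, _, hD, hDst, hπc, hπs, hπD, hrel, hπZ,
      hfree, hZC, hZμ, hμY⟩ := hμ1
    have := hD.compact
    have := hD.t2
    have := hD.secondCountable
    have := hC.compact
    have := hC.t2
    have := hC.secondCountable
    have hcomm : ∀ (g : G) (z : Z) (x : X), g • z • x = z • g • x := fun g z x =>
      smul_comm_of_step hC.nil hst hG (hZC (k + 2)) g z x
    have hwd : ∀ (g : G) (x y : X), π x = π y → π (g • x) = π (g • y) := by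
      intro g x y h
      obtain ⟨z, rfl⟩ := (hπZ x y).1 h
      exact (hπZ _ _).2 ⟨z, hcomm g z x⟩
    let r : Y → X := Function.surjInv hπs
    have hr : ∀ y, π (r y) = y := Function.surjInv_eq hπs
    letI actY : MulAction G Y :=
      { smul := fun g y => π (g • r y)
        one_smul := fun y => by
          show π ((1 : G) • r y) = y
          rw [one_smul, hr]
        mul_smul := fun g h y => by
          show π ((g * h) • r y) = π (g • r (π (h • r y)))
          rw [mul_smul]
          exact hwd g _ _ (hr _).symm }
    have hπG : ∀ (g : G) (x : X), π (g • x) = g • π x := by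
      intro g x
      show π (g • x) = π (g • r (π x))
      exact hwd g _ _ (hr _).symm
    have hquot : IsQuotientMap π := hπc.isClosedMap.isQuotientMap hπc hπs
    have contY : ContinuousConstSMul G Y := by
      constructor
      intro g
      rw [hquot.continuous_iff]
      have : (fun y : Y => g • y) ∘ π = fun x => π (g • x) := by
        funext x
        exact (hπG g x).symm
      rw [this]
      exact hπc.comp (continuous_const_smul g)
    have hGY : ∀ g : G, IsTranslation D (fun y => g • y) := by
      intro g n d hd i b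
      obtain ⟨c, hc, rfl⟩ := (hπD n d).1 hd
      refine (hπD n _).2 ⟨_, hG g n c hc i b, ?_⟩
      funext v
      simp only [Function.comp]
      split_ifs
      · exact (hπG _ _).symm
      · rfl
    have hmp := hm.prob
    -- `m` is `Z`-invariant
    have hUX : AtMostOne (acts G X) univ := by
      have := (hPP (k + 1) G X hT x).2
      rwa [hx] at this
    have hmZ : ∀ z : Z, m.map (fun x => z • x) = m := by
      intro z
      have hzm : Measurable (fun x : X => z • x) := (continuous_const_smul z).measurable
      apply hUX _ _ _ hm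
      refine ⟨Measure.isProbabilityMeasure_map hzm.aemeasurable, by simp, ?_⟩
      rintro t ⟨g, rfl⟩
      have hgm : Measurable (fun x : X => g • x) := (continuous_const_smul g).measurable
      rw [Measure.map_map hgm hzm]
      have h1 : (fun x : X => g • x) ∘ (fun x => z • x) = (fun x => z • x) ∘ (fun x => g • x) := by
        funext y
        exact hcomm g z y
      rw [h1, ← Measure.map_map hzm hgm, hm.inv _ ⟨g, rfl⟩]
    -- the image of `m`
    have hmY : IsInvOn (acts G Y) univ (m.map π) := by
      refine ⟨Measure.isProbabilityMeasure_map hπc.measurable.aemeasurable, by simp, ?_⟩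
      rintro t ⟨g, rfl⟩
      have hgm : Measurable (fun x : X => g • x) := (continuous_const_smul g).measurable
      have hgm' : Measurable (fun x : Y => g • x) := (continuous_const_smul g).measurable
      rw [Measure.map_map hgm' hπc.measurable]
      have h1 : (fun x : Y => g • x) ∘ π = π ∘ (fun x => g • x) := by
        funext y
        exact (hπG g y).symm
      rw [h1, ← Measure.map_map hπc.measurable hgm, hm.inv _ ⟨g, rfl⟩]
    have hxY : closure (MulAction.orbit G (π x)) = univ := by
      apply eq_univ_of_forall
      intro y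
      obtain ⟨x', rfl⟩ := hπs y
      have h1 : x' ∈ closure (MulAction.orbit G x) := by rw [hx]; trivial
      have h2 : MapsTo π (MulAction.orbit G x) (MulAction.orbit G (π x)) := by
        rintro _ ⟨h, rfl⟩
        exact ⟨h, (hπG _ _).symm⟩
      exact h2.closure hπc h1
    have hY := ih Y D (μ.map π) hD hDst hμY G hGY (π x) hxY (m.map π) hmY
    refine hL Z X Y π univ m μ hπc isClosed_univ (fun _ _ _ => trivial)
      (fun x _ y _ => hπZ x y) ⟨hm.prob, by simp, ?_⟩ ⟨hμp, by simp, ?_⟩ hY
    · rintro t ⟨z, rfl⟩
      exact hmZ z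
    · rintro t ⟨z, rfl⟩
      exact hZμ z

/-- topological transitivity -/
def TopTransitive {X : Type u} [TopologicalSpace X] {G : Type v} [Group G]
    (φ : G →* (X ≃ₜ X)) : Prop :=
  ∀ U V : Set X, IsOpen U → IsOpen V → U.Nonempty → V.Nonempty →
    ∃ g : G, ((φ g) '' U ∩ V).Nonempty

/-- every invariant Borel set has measure `0` or `1` -/
def IsErgodic {X : Type u} [TopologicalSpace X] [MeasurableSpace X] {G : Type v} [Group G]
    (φ : G →* (X ≃ₜ X)) (μ : Measure X) : Prop :=
  ∀ A : Set X, MeasurableSet A → (∀ g : G, (φ g) ⁻¹' A = A) → μ A = 0 ∨ μ A = 1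

/-- `μ` is the only invariant Borel probability measure -/
def IsUniquelyErgodic {X : Type u} [TopologicalSpace X] [MeasurableSpace X] {G : Type v} [Group G]
    (φ : G →* (X ≃ₜ X)) (μ : Measure X) : Prop :=
  (∀ g : G, μ.map (φ g) = μ) ∧
    ∀ ν : Measure X, IsProbabilityMeasure ν → (∀ g : G, ν.map (φ g) = ν) → ν = μ

theorem final (hPP : ∀ k, PP.{u} k) (hL : S_liftC.{u}) (k : ℕ) (X : Type u) [TopologicalSpace X]
    [MeasurableSpace X] [BorelSpace X] (C : ∀ n, Set (Cube n → X)) (hC : IsCompactNilspace C)
    (hst : IsStep k C) (μ : Measure X) (hμ : IsHaar k X C μ)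
    (G : Type v) [Group G] (φ : G →* (X ≃ₜ X)) (hφ : ∀ g, IsTranslation C (φ g))
    (htr : TopTransitive φ) : IsErgodic φ μ ∧ IsUniquelyErgodic φ μ := by
  have := hC.compact
  have := hC.t2
  have := hC.secondCountable
  have hμp : IsProbabilityMeasure μ := by
    cases k with
    | zero => exact hμ.2
    | succ k => exact hμ.1
  have hne : Nonempty X := by
    by_contra h
    rw [not_nonempty_iff] at h
    have h1 : μ univ = 1 := measure_univ
    rw [eq_empty_of_isEmpty (univ : Set X), measure_empty] at h1
    exact zero_ne_one h1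
  let H := φ.range
  letI actH : MulAction H X :=
    { smul := fun h x => (h : X ≃ₜ X) x
      one_smul := fun x => rfl
      mul_smul := fun g h x => rfl }
  have hsm : ∀ (h : H) (x : X), h • x = (h : X ≃ₜ X) x := fun _ _ => rfl
  have hcont : ContinuousConstSMul H X := ⟨fun h => (h : X ≃ₜ X).continuous⟩
  have hH : ∀ h : H, IsTranslation C (fun x => h • x) := by
    rintro ⟨_, g, rfl⟩
    exact hφ g
  -- a dense orbit
  have hB := TopologicalSpace.isBasis_countableBasis X
  have hBc := TopologicalSpace.countable_countableBasis X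
  have hdense : Dense (⋂ U ∈ TopologicalSpace.countableBasis X,
      ⋃ h : H, (fun x : X => h • x) ⁻¹' U) := by
    apply dense_biInter_of_isOpen
    · intro U hU
      exact isOpen_iUnion fun h => (hB.isOpen hU).preimage (continuous_const_smul h)
    · exact hBc
    · intro U hU
      rw [dense_iff_inter_open]
      intro V hV hVn
      obtain ⟨g, y, ⟨x, hx, rfl⟩, hy⟩ := htr V U hV (hB.isOpen hU) hVn
        (TopologicalSpace.nonempty_of_mem_countableBasis hU)
      exact ⟨x, hx, mem_iUnion.2 ⟨⟨φ g, g, rfl⟩, hy⟩⟩
  obtain ⟨x, hx⟩ := hdense.nonempty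
  have hxd : closure (MulAction.orbit H x) = univ := by
    rw [← dense_iff_closure_eq, hB.dense_iff]
    intro U hU hUn
    obtain ⟨h, hh⟩ := mem_iUnion.1 (mem_iInter₂.1 hx U hU)
    exact ⟨h • x, hh, h, rfl⟩
  have hT := tower_of_haar k X C μ hC hst hμ H hH
  have hUE := hPP k H X hT x
  rw [hxd] at hUE
  obtain ⟨⟨m, hm⟩, hU⟩ := hUE
  have hmμ : m = μ := haar_unique hPP hL k X C μ hC hst hμ H hH x hxd m hm
  rw [hmμ] at hm
  have hinv : ∀ g : G, μ.map (φ g) = μ := fun g => hm.inv _ ⟨⟨φ g, g, rfl⟩, rfl⟩
  have huniq : ∀ ν : Measure X, IsProbabilityMeasure ν → (∀ g : G, ν.map (φ g) = ν) → ν = μ := by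
    intro ν hν h
    refine hU ν μ ⟨hν, by simp, ?_⟩ hm
    rintro t ⟨⟨_, g, rfl⟩, rfl⟩
    exact h g
  refine ⟨?_, hinv, huniq⟩
  intro A hA hAinv
  by_cases h0 : μ A = 0
  · exact Or.inl h0
  · right
    have h1 : ProbabilityTheory.cond μ A = μ := by
      apply huniq _ (ProbabilityTheory.cond_isProbabilityMeasure h0)
      intro g
      ext S hS
      have hg : Measurable (φ g) := (φ g).continuous.measurable
      rw [Measure.map_apply hg hS, ProbabilityTheory.cond_apply hA, ProbabilityTheory.cond_apply hA]
      congr 1
      conv_rhs => rw [← hinv g, Measure.map_apply hg (hA.inter hS), preimage_inter, hAinv g]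
    have h2 : (ProbabilityTheory.cond μ A) A = 1 :=
      ProbabilityTheory.cond_apply_self h0 (measure_ne_top μ A)
    rwa [h1] at h2

end Pool.W508.NS
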