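import Pool.Agent.W508.NS.Plan

open MeasureTheory Topology Set

namespace Pool.W508.NS

universe u

theorem HK_map {m : ℕ} {G H : Type*} [Group G] [Group H] (φ : H →* G)
    (h : Cube m → H) (hh : h ∈ HK m H) : (fun v => φ (h v)) ∈ HK m G := by
  unfold HK at hh
  induction hh using Subgroup.closure_induction with
  | mem x hx =>
    rcases hx with ⟨g, rfl⟩ | ⟨j, g, rfl⟩
    · exact Subgroup.subset_closure (Or.inl ⟨φ g, rfl⟩)
    · apply Subgroup.subset_closure
      refine Or.inr ⟨j, φ g, ?_⟩
      funext v
      unfold faceElt
      split_ifs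
      · rfl
      · exact map_one φ
  | one =>
    have : (fun v => φ ((1 : Cube m → H) v)) = (1 : Cube m → G) := by
      funext v; exact map_one φ
    rw [this]; exact one_mem _
  | mul x y _ _ hx hy =>
    have : (fun v => φ ((x * y) v)) = (fun v => φ (x v)) * (fun v => φ (y v)) := by
      funext v; exact map_mul φ _ _
    rw [this]; exact mul_mem hx hy
  | inv x _ hx =>
    have : (fun v => φ (x⁻¹ v)) = (fun v => φ (x v))⁻¹ := by
      funext v; exact map_inv φ _
    rw [this]; exact inv_mem hx

theorem closure_coord {m : ℕ} {G H N M : Type*} [Group G] [Group H] [TopologicalSpace N]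
    [TopologicalSpace M] [MulAction G N] [MulAction H M] (φ : H →* G) (ev : M → N)
    (hev : Continuous ev) (heq : ∀ (h : H) (x : M), ev (h • x) = φ h • ev x) (x : M)
    (d : Cube m → M) (hd : d ∈ closure (MulAction.orbit (HK m H) (fun _ => x : Cube m → M))) :
    (fun v => ev (d v)) ∈ closure (MulAction.orbit (HK m G) (fun _ => ev x : Cube m → N)) := by
  have h1 : MapsTo (fun (d : Cube m → M) (v : Cube m) => ev (d v))
      (MulAction.orbit (HK m H) (fun _ => x : Cube m → M))
      (MulAction.orbit (HK m G) (fun _ => ev x : Cube m → N)) := by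
    rintro _ ⟨h, rfl⟩
    refine ⟨⟨fun v => φ ((h : Cube m → H) v), HK_map φ _ h.2⟩, ?_⟩
    funext v
    exact (heq _ _).symm
  exact h1.closure (continuous_pi fun v => hev.comp (continuous_apply v)) hd

theorem altProd_apply {m : ℕ} {ι Z : Type*} [CommGroup Z] (z : Cube m → (ι → Z)) (i : ι) :
    altProd z i = altProd (fun v => z v i) := by
  simp [altProd, Finset.prod_apply]

theorem prod_aux (k : ℕ) : ∀ (n : ℕ) (G N : Type u) [Group G] [TopologicalSpace N]
    [MulAction G N],
    IsTower k G N → ∀ H : Subgroup (Cube n → G), IsTower k H (Cube n → N) := by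
  induction k with
  | zero =>
    intro n G N _ _ _ hT H
    have : Subsingleton N := hT
    show Subsingleton (Cube n → N)
    infer_instance
  | succ k ih =>
    intro n G N _ _ _ hT H
    obtain ⟨N', _, _, _, _, _, _, Z, _, _, _, _, _, _, _, π, hπc, hπG, hπZ, hfree, hcomm, hcube,
      hT'⟩ := hT
    refine ⟨Cube n → N', inferInstance, inferInstance, inferInstance, inferInstance, inferInstance,
      inferInstance, Cube n → Z, inferInstance, inferInstance, inferInstance, inferInstance,
      inferInstance, inferInstance, inferInstance, fun c v => π (c v), ?_, ?_, ?_, ?_, ?_, ?_, ?_⟩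
    · exact continuous_pi fun v => hπc.comp (continuous_apply v)
    · intro h c
      funext v
      exact hπG _ _
    · intro c c'
      constructor
      · intro h
        have h1 : ∀ v, ∃ z : Z, c' v = z • c v := fun v => (hπZ _ _).1 (congrFun h v)
        choose z hz using h1
        exact ⟨z, funext hz⟩
      · rintro ⟨z, rfl⟩
        funext v
        exact (hπZ _ _).2 ⟨z v, rfl⟩
    · intro z c h
      funext v
      exact hfree _ _ (congrFun h v)
    · intro h z c
      funext v
      exact hcomm _ _ _
    · intro x c c' z hc hc' hz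
      funext i
      rw [altProd_apply]
      have h1 := closure_coord (G := G) ((Pi.evalMonoidHom (fun _ : Cube n => G) i).comp H.subtype)
        (fun c : Cube n → N => c i) (continuous_apply i) (fun _ _ => rfl) x c hc
      have h2 := closure_coord (G := G) ((Pi.evalMonoidHom (fun _ : Cube n => G) i).comp H.subtype)
        (fun c : Cube n → N => c i) (continuous_apply i) (fun _ _ => rfl) x c' hc'
      exact hcube (x i) _ _ _ h1 h2 (fun v => congrFun (hz v) i)
    · exact ih n G N' hT' H

theorem main_prod : S_prod.{u} := by
  intro k n G N _ _ _ _ _ _ _ hT H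
  exact prod_aux k n G N hT H

end Pool.W508.NS
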