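import Pool.Agent.W508.NS.Plan

open MeasureTheory Topology Set Filter

namespace Pool.W508.NS

universe u

theorem main_weak : S_weak.{u} := by
  intro N P _ _ _ _ _ _ _ _ _ 𝒯 E p x0 hT hE hp hU φ hφ ε hε
  have : TopologicalSpace.MetrizableSpace N := TopologicalSpace.metrizableSpace_of_t3_secondCountable N
  letI := TopologicalSpace.metrizableSpaceMetric N
  by_contra hcon
  push Not at hcon
  let PM := ProbabilityMeasure N
  let B : Set P → Set (PM × PM) := fun V =>
    {q | IsInvOn 𝒯 (E ∩ p ⁻¹' V) (q.1 : Measure N) ∧ IsInvOn 𝒯 (E ∩ p ⁻¹' V) (q.2 : Measure N) ∧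
      ε ≤ ‖∫ x, φ x ∂(q.1 : Measure N) - ∫ x, φ x ∂(q.2 : Measure N)‖}
  have hmono : Monotone B := by
    intro V V' hVV q hq
    have hsub : (E ∩ p ⁻¹' V')ᶜ ⊆ (E ∩ p ⁻¹' V)ᶜ :=
      compl_subset_compl.2 (inter_subset_inter_right _ (preimage_mono hVV))
    exact ⟨⟨hq.1.prob, measure_mono_null hsub hq.1.supp, hq.1.inv⟩,
      ⟨hq.2.1.prob, measure_mono_null hsub hq.2.1.supp, hq.2.1.inv⟩, hq.2.2⟩
  have hne : ((𝓝 x0).lift' B).NeBot := by
    rw [lift'_neBot_iff hmono]
    intro V hV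
    obtain ⟨μ, ν, hμ, hν, h⟩ := hcon V hV
    exact ⟨(⟨μ, hμ.prob⟩, ⟨ν, hν.prob⟩), hμ, hν, h.le⟩
  let u : Ultrafilter (PM × PM) := Ultrafilter.of ((𝓝 x0).lift' B)
  have hu : (u : Filter (PM × PM)) ≤ (𝓝 x0).lift' B := Ultrafilter.of_le _
  have hBu : ∀ V ∈ 𝓝 x0, ∀ᶠ q in (u : Filter (PM × PM)), q ∈ B V := fun V hV =>
    hu (mem_lift' hV)
  obtain ⟨⟨p1, p2⟩, hlim⟩ : ∃ x : PM × PM, (u : Filter (PM × PM)) ≤ 𝓝 x := ⟨_, u.le_nhds_lim⟩
  have ht1 : Tendsto (fun q : PM × PM => q.1) (u : Filter (PM × PM)) (𝓝 p1) :=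
    (continuous_fst.tendsto (p1, p2)).mono_left hlim
  have ht2 : Tendsto (fun q : PM × PM => q.2) (u : Filter (PM × PM)) (𝓝 p2) :=
    (continuous_snd.tendsto (p1, p2)).mono_left hlim
  -- limits of good families are good
  have key : ∀ (F : PM × PM → PM) (q : PM), Tendsto F (u : Filter (PM × PM)) (𝓝 q) →
      (∀ V ∈ 𝓝 x0, ∀ᶠ r in (u : Filter (PM × PM)), IsInvOn 𝒯 (E ∩ p ⁻¹' V) (F r : Measure N)) →
      IsInvOn 𝒯 (E ∩ p ⁻¹' {x0}) (q : Measure N) := by
    intro F q hF hgood
    refine ⟨inferInstance, ?_, ?_⟩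
    · have hclosed : ∀ V ∈ 𝓝 x0, IsClosed V → (q : Measure N) (E ∩ p ⁻¹' V)ᶜ = 0 := by
        intro V hV hVc
        have hopen : IsOpen (E ∩ p ⁻¹' V)ᶜ := (hE.inter (hVc.preimage hp)).isOpen_compl
        have h1 := ProbabilityMeasure.le_liminf_measure_open_of_tendsto hF hopen
        have h2 : (fun r => (F r : Measure N) (E ∩ p ⁻¹' V)ᶜ) =ᶠ[(u : Filter (PM × PM))]
            fun _ => 0 := by
          filter_upwards [hgood V hV] with r hr
          exact hr.supp
        rw [liminf_congr h2, liminf_const] at h1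
        exact le_antisymm h1 (zero_le)
      apply measure_null_of_locally_null
      intro x hx
      by_cases hxE : x ∈ E
      · have hpx : p x ≠ x0 := fun h => hx ⟨hxE, h⟩
        obtain ⟨V, hV, hVc, hVs⟩ := exists_mem_nhds_isClosed_subset
          (isOpen_compl_singleton.mem_nhds (show x0 ∈ ({p x} : Set P)ᶜ from fun h => hpx h.symm))
        refine ⟨(p ⁻¹' V)ᶜ, mem_nhdsWithin_of_mem_nhds ?_, ?_⟩
        · apply (hVc.preimage hp).isOpen_compl.mem_nhds
          intro h
          exact hVs h rfl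
        · refine measure_mono_null ?_ (hclosed V hV hVc)
          exact compl_subset_compl.2 inter_subset_right
      · refine ⟨Eᶜ, mem_nhdsWithin_of_mem_nhds (hE.isOpen_compl.mem_nhds hxE), ?_⟩
        refine measure_mono_null ?_ (hclosed univ univ_mem isClosed_univ)
        exact compl_subset_compl.2 inter_subset_left
    · intro t ht
      have hc := ProbabilityMeasure.continuous_map (hT t ht)
      have h1 : Tendsto (fun r => ProbabilityMeasure.map (F r) (hT t ht).measurable.aemeasurable)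
          (u : Filter (PM × PM))
          (𝓝 (ProbabilityMeasure.map q (hT t ht).measurable.aemeasurable)) :=
        (hc.tendsto q).comp hF
      have h2 : (fun r => ProbabilityMeasure.map (F r) (hT t ht).measurable.aemeasurable)
          =ᶠ[(u : Filter (PM × PM))] F := by
        filter_upwards [hgood univ univ_mem] with r hr
        apply Subtype.ext
        exact hr.inv t ht
      have h3 := tendsto_nhds_unique (h1.congr' h2) hF
      exact congrArg Subtype.val h3
  have hg1 := key (fun q => q.1) p1 ht1 (fun V hV => (hBu V hV).mono fun q hq => hq.1)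
  have hg2 := key (fun q => q.2) p2 ht2 (fun V hV => (hBu V hV).mono fun q hq => hq.2.1)
  have heq : (p1 : Measure N) = (p2 : Measure N) := hU _ _ hg1 hg2
  let φb : BoundedContinuousFunction N ℂ := BoundedContinuousFunction.mkOfCompact ⟨φ, hφ⟩
  have hi1 := (ProbabilityMeasure.tendsto_iff_forall_integral_rclike_tendsto ℂ).1 ht1 φb
  have hi2 := (ProbabilityMeasure.tendsto_iff_forall_integral_rclike_tendsto ℂ).1 ht2 φb
  have hi3 := (hi1.sub hi2).norm
  have h4 : ε ≤ ‖∫ x, φb x ∂(p1 : Measure N) - ∫ x, φb x ∂(p2 : Measure N)‖ := by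
    refine ge_of_tendsto hi3 ?_
    filter_upwards [hBu univ univ_mem] with q hq
    exact hq.2.2
  rw [heq, sub_self, norm_zero] at h4
  linarith

end Pool.W508.NS
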