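import Pool.Agent.W508.NS.Main0
import Pool.Agent.W508.NS.NilMain
import Pool.Agent.W508.NS.Const
import Pool.Agent.W508.NS.Weak
import Pool.Agent.W508.NS.Min
import Pool.Agent.W508.NS.Prod
import Pool.Agent.W508.NS.Baire
import Pool.Agent.W508.NS.EProof
import Pool.Agent.W508.NS.Ext3
import Pool.Agent.W305.NS.Av
import Pool.Agent.W305.NS.LiftE
import Pool.Agent.W335.NSue

namespace Pool.W508.NS

universe u

theorem pp (k : ℕ) : PP.{u} k :=
  pp_all main_prod main_min Pool.W305.NS.main Pool.W305.NS.LiftE.main main_baire main_E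
    (main main_const main_weak) (Pool.W335.NSue.main main_const) k

theorem liftC : S_liftC.{u} := Pool.W305.NS.mainC

end Pool.W508.NS
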