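import Mathlib

/-!
# MP_913761_an : transitive nilspace systems are uniquely ergodic.  Definitions and the plan.

All spaces are compact Hausdorff second countable.  `Cube n` is `{0,1}^n`.
-/

open MeasureTheory Topology Set

namespace Pool.W508.NS

universe u

/-- the discrete cube `{0,1}^n` -/
abbrev Cube (n : ℕ) : Type := Fin n → Bool

/-- the vertex `0^n` -/
def v0 (n : ℕ) : Cube n := fun _ => false

/-- `(-1)^{|w|}` -/
def sgn {n : ℕ} (w : Cube n) : ℤ := (-1) ^ (Finset.univ.filter (fun i => w i = true)).card

/-- alternating product of a cube of elements of an abelian group -/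
def altProd {Z : Type*} [CommGroup Z] {n : ℕ} (z : Cube n → Z) : Z := ∏ w, z w ^ sgn w

/-- `g` on the upper face `{w i = 1}`, `1` elsewhere -/
def faceElt {G : Type*} [Group G] {n : ℕ} (i : Fin n) (g : G) : Cube n → G :=
  fun w => if w i = true then g else 1

/-- the Host-Kra cube group: generated by the constants and the `g` on upper faces -/
def HK (n : ℕ) (G : Type*) [Group G] : Subgroup (Cube n → G) :=
  Subgroup.closure ({h | ∃ g : G, h = fun _ => g} ∪ {h | ∃ (i : Fin n) (g : G), h = faceElt i g})

/-- elements of the cube group that are trivial at the vertex `0` -/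
def HK0 (n : ℕ) (G : Type*) [Group G] : Subgroup (Cube n → G) where
  carrier := {h | h ∈ HK n G ∧ h (v0 n) = 1}
  mul_mem' := by
    rintro a b ⟨ha, ha'⟩ ⟨hb, hb'⟩
    exact ⟨mul_mem ha hb, by rw [Pi.mul_apply, ha', hb', one_mul]⟩
  one_mem' := ⟨one_mem _, rfl⟩
  inv_mem' := by
    rintro a ⟨ha, ha'⟩
    exact ⟨inv_mem ha, by rw [Pi.inv_apply, ha', inv_one]⟩

theorem altProd_one {Z : Type*} [CommGroup Z] {n : ℕ} : altProd (1 : Cube n → Z) = 1 := by
  simp [altProd]

theorem altProd_mul {Z : Type*} [CommGroup Z] {n : ℕ} (a b : Cube n → Z) :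
    altProd (a * b) = altProd a * altProd b := by
  simp [altProd, mul_zpow, Finset.prod_mul_distrib]

theorem altProd_inv {Z : Type*} [CommGroup Z] {n : ℕ} (a : Cube n → Z) :
    altProd (a⁻¹) = (altProd a)⁻¹ := by
  simp [altProd, inv_zpow, Finset.prod_inv_distrib]

/-- cubes of group elements with trivial alternating product -/
def Kalt (n : ℕ) (K : Type*) [CommGroup K] : Subgroup (Cube n → K) where
  carrier := {z | altProd z = 1}
  mul_mem' := by
    intro a b ha hb
    simp only [mem_setOf_eq] at *
    rw [altProd_mul, ha, hb, one_mul]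
  one_mem' := altProd_one
  inv_mem' := by
    intro a ha
    simp only [mem_setOf_eq] at *
    rw [altProd_inv, ha, inv_one]

/-- those that are trivial at the vertex `0` -/
def Kalt0 (n : ℕ) (K : Type*) [CommGroup K] : Subgroup (Cube n → K) where
  carrier := {z | altProd z = 1 ∧ z (v0 n) = 1}
  mul_mem' := by
    rintro a b ⟨ha, ha'⟩ ⟨hb, hb'⟩
    exact ⟨by rw [altProd_mul, ha, hb, one_mul], by rw [Pi.mul_apply, ha', hb', one_mul]⟩
  one_mem' := ⟨altProd_one, rfl⟩
  inv_mem' := by
    rintro a ⟨ha, ha'⟩
    exact ⟨by rw [altProd_inv, ha, inv_one], by rw [Pi.inv_apply, ha', inv_one]⟩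

/-- a subgroup of `ι → G` acts continuously on `ι → N` -/
instance instContSubgroupPi {ι G N : Type*} [Group G] [TopologicalSpace N] [MulAction G N]
    [ContinuousConstSMul G N] (H : Subgroup (ι → G)) : ContinuousConstSMul H (ι → N) where
  continuous_const_smul h := by
    refine continuous_pi fun v => ?_
    exact (continuous_const_smul ((h : ι → G) v)).comp (continuous_apply v)

theorem sub_smul_apply {ι G N : Type*} [Group G] [MulAction G N] (H : Subgroup (ι → G)) (h : H)
    (c : ι → N) (v : ι) : (h • c) v = (h : ι → G) v • c v := rfl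

/-- joint continuity for a subgroup of `ι → K` with `K` a topological group -/
instance instContSMulSubgroupPi {ι K N : Type*} [Group K] [TopologicalSpace K]
    [TopologicalSpace N] [MulAction K N] [ContinuousSMul K N] (H : Subgroup (ι → K)) :
    ContinuousSMul H (ι → N) where
  continuous_smul := by
    refine continuous_pi fun v => ?_
    exact ((continuous_apply v).comp (continuous_subtype_val.comp continuous_fst)).smul
      ((continuous_apply v).comp continuous_snd)

/-- joint continuity for the full product -/
instance instContSMulPiPi {ι K N : Type*} [Group K] [TopologicalSpace K]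
    [TopologicalSpace N] [MulAction K N] [ContinuousSMul K N] :
    ContinuousSMul (ι → K) (ι → N) where
  continuous_smul := by
    refine continuous_pi fun v => ?_
    exact ((continuous_apply v).comp continuous_fst).smul
      ((continuous_apply v).comp continuous_snd)

/-- A tower of `k` compact abelian group extensions over a point, `j`-th extension of degree `j`:
the dynamical `(j+1)`-cubes in one fibre differ by elements with trivial alternating product. -/
def IsTower : (k : ℕ) → (G N : Type u) → [Group G] → [TopologicalSpace N] → [MulAction G N] → Prop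
  | 0, _, N, _, _, _ => Subsingleton N
  | k + 1, G, N, _, _, _ =>
    ∃ (N' : Type u) (_ : TopologicalSpace N') (_ : CompactSpace N') (_ : T2Space N')
      (_ : SecondCountableTopology N') (_ : MulAction G N') (_ : ContinuousConstSMul G N')
      (Z : Type u) (_ : CommGroup Z) (_ : TopologicalSpace Z) (_ : IsTopologicalGroup Z)
      (_ : CompactSpace Z) (_ : T2Space Z) (_ : MulAction Z N) (_ : ContinuousSMul Z N)
      (π : N → N'),
      Continuous π ∧ (∀ (g : G) (x : N), π (g • x) = g • π x) ∧
      (∀ x y : N, π x = π y ↔ ∃ z : Z, y = z • x) ∧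
      (∀ (z : Z) (x : N), z • x = x → z = 1) ∧
      (∀ (g : G) (z : Z) (x : N), g • z • x = z • g • x) ∧
      (∀ (x : N) (c c' : Cube (k + 2) → N) (z : Cube (k + 2) → Z),
        c ∈ closure (MulAction.orbit (HK (k + 2) G) (fun _ => x : Cube (k + 2) → N)) →
        c' ∈ closure (MulAction.orbit (HK (k + 2) G) (fun _ => x : Cube (k + 2) → N)) →
        (∀ v, c' v = z v • c v) → altProd z = 1) ∧
      IsTower k G N'

/-- `μ` is invariant under all maps of the family `𝒯` -/
def InvUnder {N : Type*} [MeasurableSpace N] (𝒯 : Set (N → N)) (μ : Measure N) : Prop :=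
  ∀ t ∈ 𝒯, μ.map t = μ

/-- the maps `x ↦ g • x` -/
def acts (G N : Type*) [Group G] [MulAction G N] : Set (N → N) := {t | ∃ g : G, t = fun x => g • x}

/-- `μ` is a probability measure carried by `E` and invariant under `𝒯` -/
structure IsInvOn {N : Type*} [MeasurableSpace N] (𝒯 : Set (N → N)) (E : Set N)
    (μ : Measure N) : Prop where
  prob : IsProbabilityMeasure μ
  supp : μ Eᶜ = 0
  inv : InvUnder 𝒯 μ

/-- at most one `𝒯`-invariant probability measure on `E` -/
def AtMostOne {N : Type*} [MeasurableSpace N] (𝒯 : Set (N → N)) (E : Set N) : Prop :=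
  ∀ μ ν : Measure N, IsInvOn 𝒯 E μ → IsInvOn 𝒯 E ν → μ = ν

/-- unique ergodicity -/
def UE {N : Type*} [MeasurableSpace N] (𝒯 : Set (N → N)) (E : Set N) : Prop :=
  (∃ μ : Measure N, IsInvOn 𝒯 E μ) ∧ AtMostOne 𝒯 E

/-- the main induction statement -/
def PP (k : ℕ) : Prop :=
  ∀ (G N : Type u) [Group G] [TopologicalSpace N] [CompactSpace N] [T2Space N]
    [SecondCountableTopology N] [MeasurableSpace N] [BorelSpace N] [MulAction G N]
    [ContinuousConstSMul G N], IsTower k G N →
    ∀ x : N, UE (acts G N) (closure (MulAction.orbit G x))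

end Pool.W508.NS
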