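import Pool.Agent.W508.NS.Plan

open MeasureTheory Topology Set

namespace Pool.W508.NS

universe u

theorem sgn_v0 (n : ℕ) : sgn (v0 n) = 1 := by
  simp [sgn, v0]

theorem sgn_eq {n : ℕ} (w : Cube n) : sgn w = 1 ∨ sgn w = -1 := neg_one_pow_eq_or ℤ _

theorem sgn_mul_self {n : ℕ} (w : Cube n) : sgn w * sgn w = 1 := by
  rcases sgn_eq w with h | h <;> rw [h] <;> rfl

/-- an alternating-product-one cube with a prescribed value at `v`, supported at `v, w` -/
theorem exists_zeta {K : Type*} [CommGroup K] {n : ℕ} (v w : Cube n) (hvw : v ≠ w) (k : K) :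
    ∃ ζ : Cube n → K, altProd ζ = 1 ∧ ζ v = k ∧ ∀ u, u ≠ v → u ≠ w → ζ u = 1 := by
  classical
  refine ⟨fun u => if u = v then k else if u = w then k ^ (-(sgn v * sgn w)) else 1, ?_, ?_, ?_⟩
  · have h1 : ∀ u : Cube n, (if u = v then k else if u = w then k ^ (-(sgn v * sgn w)) else 1)
        ^ sgn u = (if u = v then k ^ sgn v else 1) * (if u = w then k ^ (-sgn v) else 1) := by
      intro u
      by_cases hu : u = v
      · subst hu
        simp [hvw]
      · by_cases hu' : u = w
        · subst hu'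
          simp only [hu, if_false, if_true, one_mul]
          rw [← zpow_mul]
          congr 1
          have := sgn_mul_self u
          linear_combination (-sgn v) * this
        · simp [hu, hu']
    unfold altProd
    simp_rw [h1]
    rw [Finset.prod_mul_distrib]
    simp
  · simp
  · intro u hu hu'
    simp [hu, hu']

theorem exists_other {n : ℕ} (hn : 2 ≤ n) (v : Cube n) : ∃ w, w ≠ v ∧ w ≠ v0 n := by
  classical
  have h : 2 < Fintype.card (Cube n) := by
    have h1 : Fintype.card (Cube n) = 2 ^ n := by simp [Cube]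
    rw [h1]
    calc 2 < 2 ^ 2 := by norm_num
      _ ≤ 2 ^ n := Nat.pow_le_pow_right (by norm_num) hn
  have : ({v, v0 n} : Finset (Cube n)).card < (Finset.univ : Finset (Cube n)).card :=
    lt_of_le_of_lt Finset.card_le_two h
  obtain ⟨w, _, hw⟩ := Finset.exists_mem_notMem_of_card_lt_card this
  simp only [Finset.mem_insert, Finset.mem_singleton, not_or] at hw
  exact ⟨w, hw.1, hw.2⟩

theorem exists_ne_v0 {n : ℕ} (hn : 2 ≤ n) (v : Cube n) : ∃ w, w ≠ v := by
  obtain ⟨w, hw, _⟩ := exists_other hn v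
  exact ⟨w, hw⟩

section marg

variable {n : ℕ} {G K N : Type u} [Group G] [CommGroup K] [TopologicalSpace K]
    [IsTopologicalGroup K] [CompactSpace K] [T2Space K]
    [TopologicalSpace N] [CompactSpace N] [T2Space N] [SecondCountableTopology N]
    [MeasurableSpace N] [BorelSpace N]
    [MulAction G N] [ContinuousConstSMul G N] [MulAction K N] [ContinuousSMul K N]

theorem marg_gen (X : Set N) (E : Set (Cube n → N)) (m : Measure N)
    (H : Subgroup (Cube n → G)) (L : Subgroup (Cube n → K))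
    (hEX : ∀ e ∈ E, ∀ v, e v ∈ X)
    (hX : MeasurableSet X)
    (hm : IsInvOn (acts G N ∪ acts K N) X m) (hU : AtMostOne (acts G N ∪ acts K N) X)
    (ν : Measure (Cube n → N))
    (hν : IsInvOn (acts H (Cube n → N) ∪ acts L (Cube n → N)) E ν)
    (v : Cube n) (hH : ∀ g : G, ∃ h ∈ H, h v = g) (hL : ∀ k : K, ∃ ζ ∈ L, ζ v = k) :
    ν.map (fun e => e v) = m := by
  have hev : Measurable (fun e : Cube n → N => e v) := measurable_pi_apply v
  apply hU _ _ _ hm
  haveI := hν.prob
  refine ⟨Measure.isProbabilityMeasure_map hev.aemeasurable, ?_, ?_⟩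
  · rw [Measure.map_apply hev hX.compl]
    refine measure_mono_null ?_ hν.supp
    intro e he heE
    exact he (hEX e heE v)
  · rintro t (⟨g, rfl⟩ | ⟨k, rfl⟩)
    · obtain ⟨h, hh, hhv⟩ := hH g
      have h1 := hν.inv (fun e => (⟨h, hh⟩ : H) • e) (Or.inl ⟨⟨h, hh⟩, rfl⟩)
      have hc1 : Measurable (fun x : N => g • x) := (continuous_const_smul g).measurable
      have hc2 : Measurable (fun e : Cube n → N => (⟨h, hh⟩ : H) • e) :=
        (continuous_const_smul _).measurable
      rw [Measure.map_map hc1 hev]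
      conv_rhs => rw [← h1]
      rw [Measure.map_map hev hc2]
      congr 1
      funext e
      simp only [Function.comp, sub_smul_apply, hhv]
    · obtain ⟨h, hh, hhv⟩ := hL k
      have h1 := hν.inv (fun e => (⟨h, hh⟩ : L) • e) (Or.inr ⟨⟨h, hh⟩, rfl⟩)
      have hc1 : Measurable (fun x : N => k • x) := (continuous_const_smul k).measurable
      have hc2 : Measurable (fun e : Cube n → N => (⟨h, hh⟩ : L) • e) :=
        (continuous_const_smul _).measurable
      rw [Measure.map_map hc1 hev]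
      conv_rhs => rw [← h1]
      rw [Measure.map_map hev hc2]
      congr 1
      funext e
      simp only [Function.comp, sub_smul_apply, hhv]

theorem marg (hn : 2 ≤ n) (X : Set N) (E : Set (Cube n → N)) (m : Measure N)
    (hEX : ∀ e ∈ E, ∀ v, e v ∈ X)
    (hX : MeasurableSet X)
    (hm : IsInvOn (acts G N ∪ acts K N) X m) (hU : AtMostOne (acts G N ∪ acts K N) X)
    (M : Measure (Cube n → N))
    (hM : IsInvOn (acts (HK n G) (Cube n → N) ∪ acts (Kalt n K) (Cube n → N)) E M)
    (v : Cube n) : M.map (fun e => e v) = m := by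
  refine marg_gen X E m (HK n G) (Kalt n K) hEX hX hm hU M hM v ?_ ?_
  · intro g
    exact ⟨fun _ => g, Subgroup.subset_closure (Or.inl ⟨g, rfl⟩), rfl⟩
  · intro k
    obtain ⟨w, hw⟩ := exists_ne_v0 hn v
    obtain ⟨ζ, h1, h2, _⟩ := exists_zeta v w hw.symm k
    exact ⟨ζ, h1, h2⟩

theorem marg0 (hn : 2 ≤ n) (X : Set N) (E : Set (Cube n → N)) (m : Measure N)
    (hEX : ∀ e ∈ E, ∀ v, e v ∈ X)
    (hX : MeasurableSet X)
    (hm : IsInvOn (acts G N ∪ acts K N) X m) (hU : AtMostOne (acts G N ∪ acts K N) X)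
    (M : Measure (Cube n → N))
    (hM : IsInvOn (acts (HK0 n G) (Cube n → N) ∪ acts (Kalt0 n K) (Cube n → N)) E M)
    (v : Cube n) (hv : v ≠ v0 n) : M.map (fun e => e v) = m := by
  refine marg_gen X E m (HK0 n G) (Kalt0 n K) hEX hX hm hU M hM v ?_ ?_
  · intro g
    obtain ⟨i, hi⟩ : ∃ i, v i = true := by
      by_contra h
      push Not at h
      apply hv
      funext i
      simpa [v0] using h i
    refine ⟨faceElt i g, ⟨Subgroup.subset_closure (Or.inr ⟨i, g, rfl⟩), ?_⟩, ?_⟩
    · simp [faceElt, v0]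
    · simp [faceElt, hi]
  · intro k
    obtain ⟨w, hw, hw0⟩ := exists_other hn v
    obtain ⟨ζ, h1, h2, h3⟩ := exists_zeta v w hw.symm k
    exact ⟨ζ, ⟨h1, h3 _ hv.symm hw0.symm⟩, h2⟩

end marg

/-- the value or its conjugate, according to the parity of the vertex -/
noncomputable def tw {n : ℕ} (w : Cube n) (z : ℂ) : ℂ :=
  if sgn w = 1 then z else (starRingEnd ℂ) z

theorem tw_v0 {n : ℕ} (z : ℂ) : tw (v0 n) z = z := by simp [tw, sgn_v0]

theorem norm_tw {n : ℕ} (w : Cube n) (z : ℂ) : ‖tw w z‖ = ‖z‖ := by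
  unfold tw
  split_ifs
  · rfl
  · exact RCLike.norm_conj z

theorem tw_mul {n : ℕ} (w : Cube n) (a b : ℂ) : tw w (a * b) = tw w a * tw w b := by
  unfold tw
  split_ifs <;> simp

theorem tw_sub {n : ℕ} (w : Cube n) (a b : ℂ) : tw w (a - b) = tw w a - tw w b := by
  unfold tw
  split_ifs <;> simp

theorem continuous_tw {n : ℕ} (w : Cube n) : Continuous (tw w) := by
  unfold tw
  split_ifs
  · exact continuous_id
  · exact Complex.continuous_conj

theorem tw_circle {n : ℕ} (w : Cube n) (z : Circle) : tw w (z : ℂ) = ((z ^ sgn w : Circle) : ℂ) := by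
  unfold tw
  rcases sgn_eq w with h | h
  · simp [h]
  · rw [h]
    simp only [zpow_neg_one]
    rw [if_neg (by norm_num), Circle.coe_inv_eq_conj]

theorem prod_tw_char {n : ℕ} {K : Type*} [CommGroup K] [TopologicalSpace K]
    (χ : ContinuousMonoidHom K Circle) (ζ : Cube n → K) (hζ : altProd ζ = 1) :
    ∏ w, tw w (χ (ζ w) : ℂ) = 1 := by
  have h1 : ∀ w, tw w (χ (ζ w) : ℂ) = ((χ (ζ w ^ sgn w) : Circle) : ℂ) := by
    intro w
    rw [tw_circle, map_zpow]
  simp_rw [h1]
  have h2 : (∏ w, χ (ζ w ^ sgn w)) = 1 := by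
    rw [← map_prod]
    show χ (altProd ζ) = 1
    rw [hζ, map_one]
  have h3 := congrArg Circle.coeHom h2
  rw [map_prod, map_one] at h3
  exact h3

theorem norm_prod_sub_le {ι : Type*} (s : Finset ι) (a b : ι → ℂ) (ha : ∀ i ∈ s, ‖a i‖ ≤ 1)
    (hb : ∀ i ∈ s, ‖b i‖ ≤ 1) : ‖∏ i ∈ s, a i - ∏ i ∈ s, b i‖ ≤ ∑ i ∈ s, ‖a i - b i‖ := by
  classical
  induction s using Finset.induction_on with
  | empty => simp
  | insert i s hi ih =>
    have ih' := ih (fun j hj => ha j (Finset.mem_insert_of_mem hj))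
      (fun j hj => hb j (Finset.mem_insert_of_mem hj))
    rw [Finset.prod_insert hi, Finset.prod_insert hi, Finset.sum_insert hi]
    have h1 : a i * ∏ j ∈ s, a j - b i * ∏ j ∈ s, b j =
        (a i - b i) * ∏ j ∈ s, a j + b i * (∏ j ∈ s, a j - ∏ j ∈ s, b j) := by ring
    rw [h1]
    refine (norm_add_le _ _).trans ?_
    rw [norm_mul, norm_mul]
    have h2 : ‖∏ j ∈ s, a j‖ ≤ 1 := by
      rw [norm_prod]
      exact Finset.prod_le_one (fun _ _ => norm_nonneg _)
        (fun j hj => ha j (Finset.mem_insert_of_mem hj))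
    have h3 : ‖b i‖ ≤ 1 := hb i (Finset.mem_insert_self _ _)
    have h4 := norm_nonneg (a i - b i)
    have h5 := norm_nonneg (∏ j ∈ s, a j - ∏ j ∈ s, b j)
    nlinarith

/-- truncation to the unit disc -/
noncomputable def ret (z : ℂ) : ℂ := ((max 1 ‖z‖ : ℝ) : ℂ)⁻¹ * z

theorem norm_ret (z : ℂ) : ‖ret z‖ ≤ 1 := by
  unfold ret
  have h0 : (0 : ℝ) < max 1 ‖z‖ := lt_of_lt_of_le one_pos (le_max_left _ _)
  rw [norm_mul, norm_inv, Complex.norm_real, Real.norm_of_nonneg h0.le, inv_mul_le_iff₀ h0]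
  simp

theorem continuous_ret : Continuous ret := by
  unfold ret
  refine Continuous.mul (Continuous.inv₀ (by fun_prop) ?_) continuous_id
  intro z
  have h0 : (0 : ℝ) < max 1 ‖z‖ := lt_of_lt_of_le one_pos (le_max_left _ _)
  exact_mod_cast h0.ne'

theorem ret_sub_le (z w : ℂ) (hw : ‖w‖ ≤ 1) : ‖w - ret z‖ ≤ 2 * ‖w - z‖ := by
  by_cases hz : ‖z‖ ≤ 1
  · have : ret z = z := by simp [ret, max_eq_left hz]
    rw [this]
    linarith [norm_nonneg (w - z)]
  · push Not at hz
    have h0 : (0 : ℝ) < ‖z‖ := by linarith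
    have h1 : z - ret z = ((1 - ‖z‖⁻¹ : ℝ) : ℂ) * z := by
      simp only [ret, max_eq_right hz.le]
      push_cast
      ring
    have h2 : ‖z - ret z‖ = ‖z‖ - 1 := by
      rw [h1, norm_mul, Complex.norm_real, Real.norm_of_nonneg]
      · field_simp
      · rw [sub_nonneg]; exact inv_le_one_of_one_le₀ hz.le
    have h3 : w - ret z = (w - z) + (z - ret z) := by ring
    rw [h3]
    refine (norm_add_le _ _).trans ?_
    rw [h2]
    have h4 : ‖z‖ - ‖w‖ ≤ ‖w - z‖ := by
      rw [norm_sub_rev]; exact norm_sub_norm_le z w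
    linarith

theorem approx {N : Type u} [TopologicalSpace N] [CompactSpace N] [T2Space N]
    [SecondCountableTopology N] [MeasurableSpace N] [BorelSpace N] (m : Measure N)
    [IsProbabilityMeasure m] (f : N → ℂ) (hf : Measurable f) (hf1 : ∀ x, ‖f x‖ ≤ 1) (ε : ℝ)
    (hε : 0 < ε) : ∃ h : N → ℂ, Continuous h ∧ (∀ x, ‖h x‖ ≤ 1) ∧ ∫ x, ‖f x - h x‖ ∂m ≤ ε := by
  haveI : TopologicalSpace.MetrizableSpace N := TopologicalSpace.metrizableSpace_of_t3_secondCountable N
  letI := TopologicalSpace.metrizableSpaceMetric N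
  have hfi : Integrable f m :=
    Integrable.of_bound hf.aestronglyMeasurable 1 (Filter.Eventually.of_forall hf1)
  obtain ⟨g, hg, hgi⟩ := hfi.exists_boundedContinuous_integral_sub_le (half_pos hε)
  refine ⟨fun x => ret (g x), continuous_ret.comp g.continuous, fun x => norm_ret _, ?_⟩
  have h1 : ∫ x, ‖f x - ret (g x)‖ ∂m ≤ ∫ x, 2 * ‖f x - g x‖ ∂m := by
    apply integral_mono_of_nonneg (Filter.Eventually.of_forall fun x => norm_nonneg _)
    · exact (hfi.sub hgi).norm.const_mul 2
    · exact Filter.Eventually.of_forall fun x => ret_sub_le _ _ (hf1 x)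
  refine h1.trans ?_
  rw [integral_const_mul]
  linarith

end Pool.W508.NS
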