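import Pool.Agent.W508.NS.Ext1

open MeasureTheory Topology Set

namespace Pool.W508.NS

universe u

/-- the product over the vertices other than `0` -/
noncomputable def Psi {n : ℕ} {N : Type*} (f : N → ℂ) (e : Cube n → N) : ℂ :=
  ∏ w ∈ Finset.univ.erase (v0 n), (starRingEnd ℂ) (tw w (f (e w)))

theorem norm_Psi_le {n : ℕ} {N : Type*} (f : N → ℂ) (hf : ∀ x, ‖f x‖ ≤ 1) (e : Cube n → N) :
    ‖Psi f e‖ ≤ 1 := by
  unfold Psi
  rw [norm_prod]
  apply Finset.prod_le_one (fun _ _ => norm_nonneg _)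
  intro w _
  rw [RCLike.norm_conj, norm_tw]
  exact hf _

theorem Psi_sub {n : ℕ} {N : Type*} (f h : N → ℂ) (hf : ∀ x, ‖f x‖ ≤ 1) (hh : ∀ x, ‖h x‖ ≤ 1)
    (e : Cube n → N) :
    ‖Psi f e - Psi h e‖ ≤ ∑ w ∈ Finset.univ.erase (v0 n), ‖f (e w) - h (e w)‖ := by
  unfold Psi
  refine (norm_prod_sub_le _ _ _ ?_ ?_).trans (Finset.sum_le_sum ?_)
  · intro w _
    rw [RCLike.norm_conj, norm_tw]; exact hf _
  · intro w _
    rw [RCLike.norm_conj, norm_tw]; exact hh _
  · intro w _
    rw [← map_sub, RCLike.norm_conj, ← tw_sub, norm_tw]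

theorem continuous_Psi {n : ℕ} {N : Type*} [TopologicalSpace N] (h : N → ℂ) (hh : Continuous h) :
    Continuous (Psi h : (Cube n → N) → ℂ) := by
  unfold Psi
  refine continuous_finsetProd _ fun w _ => ?_
  exact Complex.continuous_conj.comp ((continuous_tw w).comp (hh.comp (continuous_apply w)))

theorem measurable_Psi {n : ℕ} {N : Type*} [MeasurableSpace N] (h : N → ℂ) (hh : Measurable h) :
    Measurable (Psi h : (Cube n → N) → ℂ) := by
  unfold Psi
  refine Finset.measurable_prod _ fun w _ => ?_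
  exact Complex.continuous_conj.measurable.comp
    ((continuous_tw w).measurable.comp (hh.comp (measurable_pi_apply w)))

section main

variable {n : ℕ} {G K N : Type u} [Group G] [CommGroup K] [TopologicalSpace K]
    [IsTopologicalGroup K] [CompactSpace K] [T2Space K]
    [TopologicalSpace N] [CompactSpace N] [T2Space N] [SecondCountableTopology N]
    [MeasurableSpace N] [BorelSpace N]
    [MulAction G N] [ContinuousConstSMul G N] [MulAction K N] [ContinuousSMul K N]

theorem ext_delta (hconst : S_const.{u}) (hn : 2 ≤ n) (X : Set N) (E : Set (Cube n → N))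
    (m : Measure N) (M : Measure (Cube n → N))
    (χ : ContinuousMonoidHom K Circle) (f : N → ℂ)
    (hX : MeasurableSet X) (hEX : ∀ e ∈ E, ∀ v, e v ∈ X)
    (hm : IsInvOn (acts G N ∪ acts K N) X m) (hmU : AtMostOne (acts G N ∪ acts K N) X)
    (hM : IsInvOn (acts (HK n G) (Cube n → N) ∪ acts (Kalt n K) (Cube n → N)) E M)
    (hMU : AtMostOne (acts (HK n G) (Cube n → N) ∪ acts (Kalt n K) (Cube n → N)) E)
    (hf : Measurable f) (hf1 : ∀ x, ‖f x‖ ≤ 1) (hf2 : ∀ᵐ x ∂m, ‖f x‖ = 1)
    (hf3 : ∀ g : G, ∀ᵐ x ∂m, f (g • x) = f x)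
    (hf4 : ∀ (k : K) (x : N), f (k • x) = (χ k : ℂ) * f x) :
    ∃ θ : ℂ, ‖θ‖ ≤ 1 ∧ ∀ᵐ e ∂M, f (e (v0 n)) = θ * Psi f e := by
  classical
  have hmarg : ∀ v, M.map (fun e => e v) = m := fun v =>
    marg hn X E m hEX hX hm hmU M hM v
  have hae : ∀ (p : N → Prop), (∀ᵐ x ∂m, p x) → ∀ᵐ e ∂M, ∀ v, p (e v) := by
    intro p hp
    rw [ae_all_iff]
    intro v
    rw [← hmarg v] at hp
    exact ae_of_ae_map (measurable_pi_apply v).aemeasurable hp
  set D : (Cube n → N) → ℂ := fun e => ∏ w, tw w (f (e w)) with hD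
  have hDm : Measurable D := by
    refine Finset.measurable_prod _ fun w _ => ?_
    exact (continuous_tw w).measurable.comp (hf.comp (measurable_pi_apply w))
  have hD1 : ∀ e, ‖D e‖ ≤ 1 := by
    intro e
    rw [hD]
    simp only [norm_prod]
    exact Finset.prod_le_one (fun _ _ => norm_nonneg _) (fun w _ => by rw [norm_tw]; exact hf1 _)
  obtain ⟨c, hc⟩ := hconst (Cube n → N) _ E M
    (by
      rintro t (⟨g, rfl⟩ | ⟨k, rfl⟩)
      · exact (continuous_const_smul g).measurable
      · exact (continuous_const_smul k).measurable)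
    hM hMU D hDm ⟨1, hD1⟩
    (by
      rintro t (⟨h, rfl⟩ | ⟨ζ, rfl⟩)
      · have h1 : ∀ᵐ e ∂M, ∀ v, f ((h : Cube n → G) v • e v) = f (e v) := by
          rw [ae_all_iff]
          intro v
          have h2 := hae (fun x => f ((h : Cube n → G) v • x) = f x) (hf3 _)
          filter_upwards [h2] with e he
          exact he v
        filter_upwards [h1] with e he
        simp only [hD, sub_smul_apply, he]
      · refine Filter.Eventually.of_forall fun e => ?_
        simp only [hD, sub_smul_apply, hf4, tw_mul]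
        rw [Finset.prod_mul_distrib, prod_tw_char χ (ζ : Cube n → K)
          (show altProd (ζ : Cube n → K) = 1 from ζ.2), one_mul])
  haveI := hM.prob
  refine ⟨c, ?_, ?_⟩
  · obtain ⟨e, he⟩ := hc.exists
    rw [← he]
    exact hD1 e
  · filter_upwards [hc, hae _ hf2] with e he he2
    rw [← he]
    simp only [hD]
    rw [← Finset.mul_prod_erase _ _ (Finset.mem_univ (v0 n)), tw_v0, mul_assoc]
    unfold Psi
    rw [← Finset.prod_mul_distrib]
    have h3 : ∀ w ∈ Finset.univ.erase (v0 n),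
        tw w (f (e w)) * (starRingEnd ℂ) (tw w (f (e w))) = 1 := by
      intro w _
      rw [Complex.mul_conj, Complex.normSq_eq_norm_sq, norm_tw, he2 w]
      norm_num
    rw [Finset.prod_congr rfl h3]
    simp

/-- the conditional measures -/
theorem cond_inv (hn : 2 ≤ n) (X : Set N) (E : Set (Cube n → N)) (m : Measure N)
    (M : Measure (Cube n → N))
    (hX : MeasurableSet X) (hEX : ∀ e ∈ E, ∀ v, e v ∈ X)
    (hm : IsInvOn (acts G N ∪ acts K N) X m) (hmU : AtMostOne (acts G N ∪ acts K N) X)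
    (hM : IsInvOn (acts (HK n G) (Cube n → N) ∪ acts (Kalt n K) (Cube n → N)) E M)
    (V : Set N) (hV : MeasurableSet V) (hmV : m V ≠ 0) :
    IsInvOn (acts (HK0 n G) (Cube n → N) ∪ acts (Kalt0 n K) (Cube n → N))
      (E ∩ (fun e => e (v0 n)) ⁻¹' V)
      (ProbabilityTheory.cond M ((fun e => e (v0 n)) ⁻¹' V)) := by
  have hmarg : M.map (fun e => e (v0 n)) = m := marg hn X E m hEX hX hm hmU M hM _
  set A : Set (Cube n → N) := (fun e => e (v0 n)) ⁻¹' V with hA
  have hAm : MeasurableSet A := (measurable_pi_apply (v0 n)) hV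
  have hMA : M A ≠ 0 := by
    rw [hA, ← Measure.map_apply (measurable_pi_apply (v0 n)) hV, hmarg]
    exact hmV
  haveI := hM.prob
  refine ⟨ProbabilityTheory.cond_isProbabilityMeasure hMA, ?_, ?_⟩
  · rw [compl_inter]
    refine measure_union_null ?_ ?_
    · exact ProbabilityTheory.cond_absolutelyContinuous hM.supp
    · rw [ProbabilityTheory.cond_apply hAm]
      simp
  · have key : ∀ t : (Cube n → N) → (Cube n → N), Measurable t → M.map t = M → t ⁻¹' A = A →
        (ProbabilityTheory.cond M A).map t = ProbabilityTheory.cond M A := by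
      intro t ht htM htA
      ext S hS
      rw [Measure.map_apply ht hS, ProbabilityTheory.cond_apply hAm,
        ProbabilityTheory.cond_apply hAm]
      congr 1
      conv_rhs => rw [← htM, Measure.map_apply ht (hAm.inter hS), preimage_inter, htA]
    rintro t (⟨h, rfl⟩ | ⟨ζ, rfl⟩)
    · apply key _ (continuous_const_smul h).measurable
      · exact hM.inv _ (Or.inl ⟨⟨h, h.2.1⟩, rfl⟩)
      · ext e
        have h1 : (h : Cube n → G) (v0 n) = 1 := h.2.2
        simp only [hA, mem_preimage, sub_smul_apply, h1, one_smul]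
    · apply key _ (continuous_const_smul ζ).measurable
      · exact hM.inv _ (Or.inr ⟨⟨ζ, ζ.2.1⟩, rfl⟩)
      · ext e
        have h1 : (ζ : Cube n → K) (v0 n) = 1 := ζ.2.2
        simp only [hA, mem_preimage, sub_smul_apply, h1, one_smul]

/-- averages of `f` over `V` in terms of the conditional measure -/
theorem avg_eq (hn : 2 ≤ n) (X : Set N) (E : Set (Cube n → N)) (m : Measure N)
    (M : Measure (Cube n → N))
    (hX : MeasurableSet X) (hEX : ∀ e ∈ E, ∀ v, e v ∈ X)
    (hm : IsInvOn (acts G N ∪ acts K N) X m) (hmU : AtMostOne (acts G N ∪ acts K N) X)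
    (hM : IsInvOn (acts (HK n G) (Cube n → N) ∪ acts (Kalt n K) (Cube n → N)) E M)
    (f : N → ℂ) (hf : Measurable f) (θ : ℂ)
    (hθ : ∀ᵐ e ∂M, f (e (v0 n)) = θ * Psi f e)
    (V : Set N) (hV : MeasurableSet V) :
    (m.real V)⁻¹ • ∫ x in V, f x ∂m =
      θ * ∫ e, Psi f e ∂(ProbabilityTheory.cond M ((fun e => e (v0 n)) ⁻¹' V)) := by
  have hmarg : M.map (fun e => e (v0 n)) = m := marg hn X E m hEX hX hm hmU M hM _
  have hev := measurable_pi_apply (X := fun _ : Cube n => N) (v0 n)
  have hAm : MeasurableSet ((fun e : Cube n → N => e (v0 n)) ⁻¹' V) := hev hV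
  have h1 : ∫ x in V, f x ∂m = ∫ e in (fun e => e (v0 n)) ⁻¹' V, f (e (v0 n)) ∂M := by
    rw [← hmarg]
    exact setIntegral_map hV hf.aestronglyMeasurable hev.aemeasurable
  have h2 : m.real V = M.real ((fun e => e (v0 n)) ⁻¹' V) := by
    rw [← hmarg, Measure.real, Measure.real, Measure.map_apply hev hV]
  rw [h1, h2, ← integral_const_mul]
  unfold ProbabilityTheory.cond
  rw [integral_smul_measure, ENNReal.toReal_inv]
  congr 1
  apply integral_congr_ae
  exact ae_restrict_of_ae hθ

end main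

end Pool.W508.NS
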