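import Pool.Agent.W508.NS.Plan

/-!
# The induction, from the lemmas of the plan
-/

open MeasureTheory Topology Set

namespace Pool.W508.NS

universe u

theorem pp_zero : PP.{u} 0 := by
  intro G N _ _ _ _ _ _ _ _ _ hT x
  have hs : Subsingleton N := hT
  have hcl : closure (MulAction.orbit G x) = univ := by
    apply eq_univ_of_forall
    intro y
    rw [Subsingleton.elim y x]
    exact subset_closure (MulAction.mem_orbit_self x)
  have hmeas : ∀ A : Set N, A = ∅ ∨ A = univ := by
    intro A
    rcases A.eq_empty_or_nonempty with h | ⟨a, ha⟩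
    · exact Or.inl h
    · right
      apply eq_univ_of_forall
      intro y
      rwa [Subsingleton.elim y a]
  refine ⟨⟨Measure.dirac x, ?_, ?_, ?_⟩, ?_⟩
  · infer_instance
  · rw [hcl]; simp
  · intro t _
    have : t = id := by
      funext y
      exact Subsingleton.elim _ _
    rw [this, Measure.map_id]
  · intro μ ν hμ hν
    ext A _
    haveI := hμ.prob
    haveI := hν.prob
    rcases hmeas A with h | h
    · rw [h]; simp
    · rw [h, measure_univ, measure_univ]

theorem pp_succ (hprod : S_prod.{u}) (hmin : S_min.{u}) (hliftU : S_liftU.{u})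
    (hliftE : S_liftE.{u}) (hbaire : S_baire.{u}) (hE : S_E.{u}) (hext : S_ext.{u})
    (hue : S_ue.{u}) (k : ℕ) (ih : PP.{u} k) : PP.{u} (k + 1) := by
  intro G N _ _ _ _ _ _ _ _ _ hT x
  have hT0 := hT
  obtain ⟨N', _, _, _, _, _, _, Z, _, _, _, _, _, _, _, π, hπc, hπG, hπZ, hfree, hcomm, hcube,
    hT'⟩ := hT
  letI : MeasurableSpace N' := borel N'
  haveI : BorelSpace N' := ⟨rfl⟩
  set X : Set N := closure (MulAction.orbit G x) with hX
  set n : ℕ := k + 2 with hn
  have hmin' := hmin (k + 1) G N hT0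
  have hXG : ∀ y ∈ X, ∀ g : G, g • y ∈ X := by
    intro y hy g
    have h1 : MapsTo (fun y : N => g • y) (MulAction.orbit G x) (MulAction.orbit G x) := by
      rintro _ ⟨h, rfl⟩
      exact ⟨g * h, by simp [mul_smul]⟩
    exact h1.closure (continuous_const_smul g) hy
  have hXmin : ∀ y ∈ X, X ⊆ closure (MulAction.orbit G y) := by
    intro y hy
    have h1 : x ∈ closure (MulAction.orbit G y) := hmin' x y hy
    apply closure_minimal _ isClosed_closure
    rintro _ ⟨g, rfl⟩
    have h2 : MapsTo (fun y : N => g • y) (MulAction.orbit G y) (MulAction.orbit G y) := by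
      rintro _ ⟨h, rfl⟩
      exact ⟨g * h, by simp [mul_smul]⟩
    exact h2.closure (continuous_const_smul g) h1
  -- if `z • y ∈ X` for some `y ∈ X` then `z • X ⊆ X`
  have hZcl : ∀ (z : Z) (y y' : N), y' ∈ closure (MulAction.orbit G y) →
      z • y' ∈ closure (MulAction.orbit G (z • y)) := by
    intro z y y' hy'
    have h2 : MapsTo (fun y : N => z • y) (MulAction.orbit G y) (MulAction.orbit G (z • y)) := by
      rintro _ ⟨h, rfl⟩
      exact ⟨h, by simp [hcomm]⟩
    exact h2.closure (continuous_const_smul z) hy'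
  have hsub : ∀ y ∈ X, closure (MulAction.orbit G y) ⊆ X := by
    intro y hy
    apply closure_minimal _ isClosed_closure
    rintro _ ⟨g, rfl⟩
    exact hXG y hy g
  have hZX : ∀ (z : Z) (y : N), y ∈ X → z • y ∈ X → ∀ y' ∈ X, z • y' ∈ X := by
    intro z y hy hzy y' hy'
    exact hsub _ hzy (hZcl z y y' (hXmin y hy hy'))
  have hxX : x ∈ X := subset_closure (MulAction.mem_orbit_self x)
  let K : Subgroup Z :=
    { carrier := {z | ∀ y ∈ X, z • y ∈ X}
      mul_mem' := by
        intro a b ha hb y hy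
        rw [mul_smul]
        exact ha _ (hb _ hy)
      one_mem' := by
        intro y hy
        rwa [one_smul]
      inv_mem' := by
        intro a ha y hy
        -- `a⁻¹ • (a • x) = x`
        refine hZX a⁻¹ (a • x) (ha x hxX) ?_ y hy
        rwa [inv_smul_smul] }
  have hKmem : ∀ z : Z, z ∈ K ↔ ∀ y ∈ X, z • y ∈ X := fun z => Iff.rfl
  have hKcl : IsClosed (K : Set Z) := by
    have : (K : Set Z) = {z : Z | z • x ∈ X} := by
      ext z
      constructor
      · intro hz
        exact hz x hxX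
      · intro hz
        exact hZX z x hxX hz
    rw [this]
    exact isClosed_closure.preimage (continuous_id.smul continuous_const)
  haveI : CompactSpace K := isCompact_iff_compactSpace.1 hKcl.isCompact
  have hKX : ∀ y ∈ X, ∀ k : K, k • y ∈ X := fun y hy k => k.2 y hy
  have hKfib : ∀ y ∈ X, ∀ y' ∈ X, π y = π y' → ∃ k : K, y' = k • y := by
    intro y hy y' hy' h
    obtain ⟨z, hz⟩ := (hπZ y y').1 h
    refine ⟨⟨z, hZX z y hy (hz ▸ hy')⟩, hz⟩
  have hπK : ∀ (k : K) (y : N), π (k • y) = π y := fun k y => ((hπZ y _).2 ⟨k, rfl⟩).symm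
  have hcommK : ∀ (g : G) (k : K) (x : N), g • k • x = k • g • x := fun g k x => hcomm g k x
  -- the induction hypothesis for `Y`
  have hY : UE (acts G N') (closure (MulAction.orbit G (π x))) := ih G N' hT' (π x)
  have himX : π '' X = closure (MulAction.orbit G (π x)) := by
    apply Subset.antisymm
    · rintro _ ⟨y, hy, rfl⟩
      have h2 : MapsTo π (MulAction.orbit G x) (MulAction.orbit G (π x)) := by
        rintro _ ⟨h, rfl⟩
        exact ⟨h, by simp [hπG]⟩
      exact h2.closure hπc hy
    · apply closure_minimal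
      · rintro _ ⟨g, rfl⟩
        exact ⟨g • x, subset_closure ⟨g, rfl⟩, hπG g x⟩
      · exact (isClosed_closure.isCompact.image hπc).isClosed
  have hfibX : ∀ y ∈ X, ∀ y' ∈ X, π y = π y' ↔ ∃ k : K, y' = k • y := by
    intro y hy y' hy'
    refine ⟨hKfib y hy y' hy', ?_⟩
    rintro ⟨k, rfl⟩
    exact (hπK k y).symm
  obtain ⟨m, hm⟩ := hliftE G K N N' π X _ hπc hπG isClosed_closure hcommK himX hKX hXG hfibX hY.1
  have hmU : AtMostOne (acts G N ∪ acts K N) X :=
    hliftU G K N N' π X _ hπc hπG isClosed_closure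
      (fun y hy => by rw [← himX]; exact ⟨y, hy, rfl⟩) hKX hfibX hY.2
  -- the cube spaces
  have hcubeK : ∀ (c c' : Cube n → N) (z : Cube n → K),
        c ∈ closure (MulAction.orbit (HK n G) (fun _ => x : Cube n → N)) →
        c' ∈ closure (MulAction.orbit (HK n G) (fun _ => x : Cube n → N)) →
        (∀ v, c' v = z v • c v) → altProd z = 1 := by
    intro c c' z hc hc' h
    have h1 := hcube x c c' (fun v => (z v : Z)) hc hc' h
    have h2 : ((altProd z : K) : Z) = altProd (fun v => (z v : Z)) := by simp [altProd]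
    apply Subtype.ext
    rw [h2, h1]
    rfl
  obtain ⟨hEcl, hEX, hEim, hEK, hEH, hEfib⟩ :=
    hE n G K N N' π x hπc hπG hcommK hπK hKX hKfib hcubeK
  have hTC : UE (acts (HK n G) (Cube n → N'))
      (closure (MulAction.orbit (HK n G) (fun _ => π x : Cube n → N'))) :=
    ih (HK n G) (Cube n → N') (hprod k n G N' hT' (HK n G)) _
  let q : (Cube n → N) → (Cube n → N') := fun e v => π (e v)
  have hqc : Continuous q := continuous_pi fun v => hπc.comp (continuous_apply v)
  have hqH : ∀ (h : HK n G) (e : Cube n → N), q (h • e) = h • q e := by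
    intro h e
    funext v
    exact hπG _ _
  have hcommH : ∀ (h : HK n G) (ζ : Kalt n K) (e : Cube n → N), h • ζ • e = ζ • h • e := by
    intro h ζ e
    funext v
    exact hcommK _ _ _
  have hKaltcl : IsClosed ((Kalt n K : Subgroup (Cube n → K)) : Set (Cube n → K)) := by
    have : ((Kalt n K : Subgroup (Cube n → K)) : Set (Cube n → K)) = {z | altProd z = 1} := rfl
    rw [this]
    refine isClosed_eq ?_ continuous_const
    unfold altProd
    fun_prop
  haveI : CompactSpace (Kalt n K) := isCompact_iff_compactSpace.1 hKaltcl.isCompact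
  have hKalt0cl : IsClosed ((Kalt0 n K : Subgroup (Cube n → K)) : Set (Cube n → K)) := by
    have : ((Kalt0 n K : Subgroup (Cube n → K)) : Set (Cube n → K)) =
      {z | altProd z = 1} ∩ {z | z (v0 n) = 1} := rfl
    rw [this]
    exact hKaltcl.inter (isClosed_eq (continuous_apply _) continuous_const)
  haveI : CompactSpace (Kalt0 n K) := isCompact_iff_compactSpace.1 hKalt0cl.isCompact
  obtain ⟨M, hM⟩ := hliftE (HK n G) (Kalt n K) (Cube n → N) (Cube n → N') q (EE n G K x) _ hqc hqH
    hEcl hcommH hEim hEK hEH hEfib hTC.1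
  have hMU := hliftU (HK n G) (Kalt n K) (Cube n → N) (Cube n → N') q (EE n G K x) _ hqc hqH
    hEcl (fun e he => by rw [← hEim]; exact ⟨e, he, rfl⟩) hEK hEfib hTC.2
  -- the generic point
  obtain ⟨y0, hy0, hb⟩ := hbaire n G N' (π x)
  rw [← himX] at hy0
  obtain ⟨x0, hx0, rfl⟩ := hy0
  have hT0' : UE (acts (HK0 n G) (Cube n → N'))
      (closure (MulAction.orbit (HK0 n G) (fun _ => π x0 : Cube n → N'))) :=
    ih (HK0 n G) (Cube n → N') (hprod k n G N' hT' (HK0 n G)) _
  have hM0 : AtMostOne (acts (HK0 n G) (Cube n → N) ∪ acts (Kalt0 n K) (Cube n → N))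
      (EE n G K x ∩ (fun e => e (v0 n)) ⁻¹' {x0}) := by
    refine hliftU (HK0 n G) (Kalt0 n K) (Cube n → N) (Cube n → N') q
      (EE n G K x ∩ (fun e => e (v0 n)) ⁻¹' {x0})
      (closure (MulAction.orbit (HK0 n G) (fun _ => π x0 : Cube n → N'))) hqc ?_ ?_ ?_ ?_ ?_ hT0'.2
    · intro h e
      funext v
      exact hπG _ _
    · exact hEcl.inter (isClosed_singleton.preimage (continuous_apply _))
    · rintro e ⟨he, he0⟩
      apply hb
      · rw [← hEim]; exact ⟨e, he, rfl⟩
      · have : e (v0 n) = x0 := he0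
        show π (e (v0 n)) = π x0
        rw [this]
    · rintro e ⟨he, he0⟩ ζ
      refine ⟨hEK e he ⟨ζ, ζ.2.1⟩, ?_⟩
      have h1 : (ζ : Cube n → K) (v0 n) = 1 := ζ.2.2
      have h2 : e (v0 n) = x0 := he0
      show (ζ : Cube n → K) (v0 n) • e (v0 n) = x0
      rw [h1, one_smul, h2]
    · rintro e ⟨he, he0⟩ e' ⟨he', he0'⟩
      constructor
      · intro h
        obtain ⟨ζ, hζ⟩ := (hEfib e he e' he').1 h
        have h2 : e (v0 n) = x0 := he0
        have h2' : e' (v0 n) = x0 := he0'
        have h3 : ((ζ : Cube n → K) (v0 n)) • x0 = x0 := by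
          have h5 : e' (v0 n) = (ζ : Cube n → K) (v0 n) • e (v0 n) := congrFun hζ (v0 n)
          rw [h2', h2] at h5
          exact h5.symm
        have h4 : (ζ : Cube n → K) (v0 n) = 1 := by
          apply Subtype.ext
          exact hfree _ x0 h3
        exact ⟨⟨ζ, ζ.2, h4⟩, hζ⟩
      · rintro ⟨ζ, rfl⟩
        exact (hEfib e he _ he').2 ⟨⟨ζ, ζ.2.1⟩, rfl⟩
  refine ⟨⟨m, hm.prob, hm.supp, fun t ht => hm.inv t (Or.inl ht)⟩, ?_⟩
  apply hue G K N X m isClosed_closure hXG hKX hcommK hm hmU
  intro χ f hf1 hf2 hf3 hf4 hf5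
  exact hext n G K N X (EE n G K x) m M x0 χ f (by omega) isClosed_closure hEcl hEX hXmin hXG hKX
    hm hmU hM hMU hx0 hM0 hf1 hf2 hf3 hf4 hf5

theorem pp_all (hprod : S_prod.{u}) (hmin : S_min.{u}) (hliftU : S_liftU.{u})
    (hliftE : S_liftE.{u}) (hbaire : S_baire.{u}) (hE : S_E.{u}) (hext : S_ext.{u})
    (hue : S_ue.{u}) (k : ℕ) : PP.{u} k := by
  induction k with
  | zero => exact pp_zero
  | succ k ih => exact pp_succ hprod hmin hliftU hliftE hbaire hE hext hue k ih

end Pool.W508.NS
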