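import Pool.Agent.W508.NS.Plan2

/-!
# Compact nilspaces and their Haar measure
-/

open MeasureTheory Topology Set

namespace Pool.W508.NS

universe u

/-- `true ↦ 1`, `false ↦ 0` -/
def bit (b : Bool) : ℤ := if b = true then 1 else 0

/-- Morphisms of discrete cubes `{0,1}^m → {0,1}^n`: restrictions of affine homomorphisms
`ℤ^m → ℤ^n`. -/
def IsMor {m n : ℕ} (φ : Cube m → Cube n) : Prop :=
  ∃ (A : Fin n → Fin m → ℤ) (b : Fin n → ℤ),
    ∀ (v : Cube m) (i : Fin n), bit (φ v i) = b i + ∑ j, A i j * bit (v j)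

/-- the vertex `1^n` -/
def v1 (n : ℕ) : Cube n := fun _ => true

/-- The nilspace axioms for the cube sets `C n ⊆ X^{{0,1}^n}`. In `corner`, `c'` is an
`(n+1)`-corner (its value at `1^(n+1)` is irrelevant): the restrictions to the faces `{v i = 0}`
(the `n`-faces containing `0^(n+1)`) are cubes. -/
structure IsNilspace {X : Type*} (C : ∀ n, Set (Cube n → X)) : Prop where
  comp : ∀ {m n : ℕ} (φ : Cube m → Cube n), IsMor φ → ∀ c ∈ C n, c ∘ φ ∈ C m
  ergodic : C 1 = univ
  corner : ∀ (n : ℕ) (c' : Cube (n + 1) → X),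
    (∀ i : Fin (n + 1), (fun w : Cube n => c' (i.insertNth false w)) ∈ C n) →
    ∃ c ∈ C (n + 1), ∀ v, v ≠ v1 (n + 1) → c v = c' v

/-- `k`-step: `(k+1)`-corners have unique completions -/
def IsStep {X : Type*} (k : ℕ) (C : ∀ n, Set (Cube n → X)) : Prop :=
  ∀ c ∈ C (k + 1), ∀ c' ∈ C (k + 1), (∀ v, v ≠ v1 (k + 1) → c v = c' v) → c = c'

/-- compact nilspaces -/
structure IsCompactNilspace {X : Type*} [TopologicalSpace X] (C : ∀ n, Set (Cube n → X)) :
    Prop where
  compact : CompactSpace X
  t2 : T2Space X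
  secondCountable : SecondCountableTopology X
  nil : IsNilspace C
  closed : ∀ n, IsClosed (C n)

/-- applying `α` at the vertices of a codimension one face of a cube gives a cube -/
def IsTranslation {X : Type*} (C : ∀ n, Set (Cube n → X)) (α : X → X) : Prop :=
  ∀ (n : ℕ), ∀ c ∈ C n, ∀ (i : Fin n) (b : Bool),
    (fun v => if v i = b then α (c v) else c v) ∈ C n

/-- `x ∼ y` of order `k`: the map equal to `x` off `1^k` and to `y` at `1^k` is a `k`-cube.
For a `k`-step nilspace the quotient is the `(k-1)`-step factor. -/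
def FactorRel {X : Type*} (C : ∀ n, Set (Cube n → X)) (k : ℕ) (x y : X) : Prop :=
  ∃ c ∈ C k, (∀ v, v ≠ v1 k → c v = x) ∧ c (v1 k) = y

/-- the face of `{0,1}^n` with free coordinates `s` and the other coordinates given by `b` -/
noncomputable def faceEmb {m n : ℕ} (s : Fin m ↪ Fin n) (b : Cube n) (v : Cube m) : Cube n :=
  open Classical in fun i => if h : ∃ j, s j = i then v h.choose else b i

/-- the cubes of `D_k(Z)`: the alternating product over every `(k+1)`-dimensional face is `1` -/
def Dcubes (k : ℕ) (Z : Type*) [CommGroup Z] (n : ℕ) : Set (Cube n → Z) :=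
  {z | ∀ (s : Fin (k + 1) ↪ Fin n) (b : Cube n), altProd (z ∘ faceEmb s b) = 1}

/-- `μ` is the Haar measure of the `k`-step compact nilspace `X`: a probability measure which for
`k ≥ 1` is invariant under the top structure group `Z` (a compact abelian group acting freely on
`X`, whose orbits are the fibres of the factor map `π` onto the `(k-1)`-step factor `Y` and such
that for a cube `c` the map `z • c` is a cube iff `z` is a cube of `D_k(Z)`), and whose image in
`Y` is the Haar measure of `Y`. A `0`-step nilspace is a point. -/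
def IsHaar : (k : ℕ) → (X : Type u) → [TopologicalSpace X] → [MeasurableSpace X] →
    (∀ n, Set (Cube n → X)) → Measure X → Prop
  | 0, X, _, _, _, μ => Subsingleton X ∧ IsProbabilityMeasure μ
  | k + 1, X, _, _, C, μ =>
    IsProbabilityMeasure μ ∧
    ∃ (Y : Type u) (_ : TopologicalSpace Y) (_ : MeasurableSpace Y) (_ : BorelSpace Y)
      (D : ∀ n, Set (Cube n → Y)) (π : X → Y)
      (Z : Type u) (_ : CommGroup Z) (_ : TopologicalSpace Z) (_ : IsTopologicalGroup Z)
      (_ : CompactSpace Z) (_ : T2Space Z) (_ : MulAction Z X) (_ : ContinuousSMul Z X),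
      IsCompactNilspace D ∧ IsStep k D ∧
      Continuous π ∧ Function.Surjective π ∧
      (∀ (n : ℕ) (d : Cube n → Y), d ∈ D n ↔ ∃ c ∈ C n, d = π ∘ c) ∧
      (∀ x y : X, π x = π y ↔ FactorRel C (k + 1) x y) ∧
      (∀ x y : X, π x = π y ↔ ∃ z : Z, y = z • x) ∧
      (∀ (z : Z) (x : X), z • x = x → z = 1) ∧
      (∀ (n : ℕ), ∀ c ∈ C n, ∀ z : Cube n → Z,
        (fun v => z v • c v) ∈ C n ↔ z ∈ Dcubes (k + 1) Z n) ∧
      (∀ z : Z, μ.map (fun x => z • x) = μ) ∧
      IsHaar k Y D (μ.map π)

end Pool.W508.NS
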