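import Pool.Agent.W508.NS.NilDefs

open MeasureTheory Topology Set

namespace Pool.W508.NS

universe u

theorem altProd_face {n : ℕ} {Z : Type*} [CommGroup Z] (s : Fin n ↪ Fin n) (b : Cube n)
    (z : Cube n → Z) : altProd (z ∘ faceEmb s b) = altProd z := by
  classical
  let e : Fin n ≃ Fin n := Equiv.ofBijective s (Finite.injective_iff_bijective.1 s.injective)
  have h1 : ∀ v : Cube n, faceEmb s b v = fun i => v (e.symm i) := by
    intro v
    funext i
    have h : ∃ j, s j = i := ⟨e.symm i, e.apply_symm_apply i⟩
    have h2 : h.choose = e.symm i := by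
      apply e.injective
      rw [e.apply_symm_apply]
      exact h.choose_spec
    unfold faceEmb
    rw [dif_pos h, h2]
  let F : Cube n ≃ Cube n := e.arrowCongr (Equiv.refl Bool)
  have h2 : ∀ v : Cube n, faceEmb s b v = F v := by
    intro v
    rw [h1]
    rfl
  have h3 : ∀ v : Cube n, sgn (F v) = sgn v := by
    intro v
    unfold sgn
    congr 1
    apply Finset.card_bij (fun i _ => e.symm i)
    · intro i hi
      simp only [Finset.mem_filter, Finset.mem_univ, true_and] at hi ⊢
      exact hi
    · intro i _ j _ hij
      exact e.symm.injective hij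
    · intro j hj
      simp only [Finset.mem_filter, Finset.mem_univ, true_and] at hj
      refine ⟨e j, ?_, by simp⟩
      simp only [Finset.mem_filter, Finset.mem_univ, true_and]
      show v (e.symm (e j)) = true
      rw [e.symm_apply_apply]
      exact hj
  unfold altProd
  rw [← Equiv.prod_comp F (fun w => z w ^ sgn w)]
  apply Finset.prod_congr rfl
  intro v _
  rw [Function.comp, h2, h3]

theorem mem_Dcubes_top {k : ℕ} {Z : Type*} [CommGroup Z] (z : Cube (k + 1) → Z) :
    z ∈ Dcubes k Z (k + 1) ↔ altProd z = 1 := by
  constructor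
  · intro h
    have := h (Function.Embedding.refl _) (v0 _)
    rwa [altProd_face] at this
  · intro h s b
    rw [altProd_face]
    exact h

theorem const_mem {X : Type*} {C : ∀ n, Set (Cube n → X)} (hC : IsNilspace C) (n : ℕ) (x : X) :
    (fun _ => x : Cube n → X) ∈ C n := by
  have h1 : (fun _ => x : Cube 1 → X) ∈ C 1 := by rw [hC.ergodic]; trivial
  have h2 : IsMor (fun _ : Cube n => (v0 1)) := by
    refine ⟨fun _ _ => 0, fun _ => 0, ?_⟩
    intro v i
    simp [bit, v0]
  exact hC.comp _ h2 _ h1

/-- acting by the cube group preserves cubes -/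
theorem HK_cubes {X G : Type*} [Group G] [MulAction G X] {C : ∀ n, Set (Cube n → X)} {n : ℕ}
    (hn : 0 < n) (hG : ∀ g : G, IsTranslation C (fun x => g • x)) (h : Cube n → G)
    (hh : h ∈ HK n G) :
    (∀ c ∈ C n, (fun v => h v • c v) ∈ C n) ∧ (∀ c ∈ C n, (fun v => (h v)⁻¹ • c v) ∈ C n) := by
  have hface : ∀ (g : G) (i : Fin n), ∀ c ∈ C n, (fun v => faceElt i g v • c v) ∈ C n := by
    intro g i c hc
    have h1 := hG g n c hc i true
    convert! h1 using 2 with v
    unfold faceElt
    split_ifs <;> simp
  have hconst : ∀ (g : G), ∀ c ∈ C n, (fun v => g • c v) ∈ C n := by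
    intro g c hc
    have h1 := hG g n c hc ⟨0, hn⟩ true
    have h2 := hG g n _ h1 ⟨0, hn⟩ false
    convert! h2 using 2 with v
    by_cases hv : v ⟨0, hn⟩ = true
    · simp [hv]
    · simp [hv]
  unfold HK at hh
  induction hh using Subgroup.closure_induction with
  | mem x hx =>
    rcases hx with ⟨g, rfl⟩ | ⟨i, g, rfl⟩
    · exact ⟨hconst g, hconst g⁻¹⟩
    · refine ⟨hface g i, ?_⟩
      intro c hc
      have h1 := hface g⁻¹ i c hc
      convert! h1 using 2 with v
      unfold faceElt
      split_ifs <;> simp
  | one => simp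
  | mul x y _ _ hx hy =>
    refine ⟨?_, ?_⟩
    · intro c hc
      have := hx.1 _ (hy.1 c hc)
      simpa [mul_smul] using this
    · intro c hc
      have := hy.2 _ (hx.2 c hc)
      simpa [mul_smul] using this
  | inv x _ hx =>
    refine ⟨?_, ?_⟩
    · intro c hc
      simpa using hx.2 c hc
    · intro c hc
      simpa using hx.1 c hc

theorem sgn_flip {k : ℕ} : sgn (Function.update (v1 (k + 2)) 0 false) = - sgn (v1 (k + 2)) := by
  have h1 : (Finset.univ.filter (fun i : Fin (k + 2) => v1 (k + 2) i = true)) = Finset.univ := by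
    ext i
    simp [v1]
  have h2 : (Finset.univ.filter (fun i : Fin (k + 2) =>
      Function.update (v1 (k + 2)) 0 false i = true)) = Finset.univ.erase 0 := by
    ext i
    simp only [Finset.mem_filter, Finset.mem_univ, true_and, Finset.mem_erase, and_true]
    by_cases hi : i = 0
    · subst hi; simp
    · simp [hi, v1]
  unfold sgn
  rw [h1, h2, Finset.card_erase_of_mem (Finset.mem_univ _), Finset.card_univ, Fintype.card_fin]
  show (-1 : ℤ) ^ (k + 1) = -(-1) ^ (k + 2)
  ring

/-- translations commute with the top structure group -/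
theorem smul_comm_of_step {k : ℕ} {X G Z : Type*} [Group G] [MulAction G X]
    [CommGroup Z] [MulAction Z X] {C : ∀ n, Set (Cube n → X)} (hC : IsNilspace C)
    (hstep : IsStep (k + 1) C) (hG : ∀ g : G, IsTranslation C (fun x => g • x))
    (hZ : ∀ c ∈ C (k + 2), ∀ z : Cube (k + 2) → Z,
        (fun v => z v • c v) ∈ C (k + 2) ↔ z ∈ Dcubes (k + 1) Z (k + 2))
    (g : G) (z : Z) (x : X) : g • z • x = z • g • x := by
  classical
  set w1 := v1 (k + 2) with hw1
  set w2 : Cube (k + 2) := Function.update w1 0 false with hw2
  have hne : w1 ≠ w2 := by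
    intro h
    have := congrFun h 0
    simp [hw1, hw2, v1] at this
  let ζ : Cube (k + 2) → Z := fun v => if v = w1 then z else if v = w2 then z else 1
  have hζ : ζ ∈ Dcubes (k + 1) Z (k + 2) := by
    rw [mem_Dcubes_top]
    have h1 : ∀ v, ζ v ^ sgn v =
        (if v = w1 then z ^ sgn w1 else 1) * (if v = w2 then z ^ sgn w2 else 1) := by
      intro v
      by_cases h : v = w1
      · subst h; simp [ζ, hne]
      · by_cases h' : v = w2
        · subst h'; simp [ζ, h]
        · simp [ζ, h, h']
    unfold altProd
    simp_rw [h1]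
    rw [Finset.prod_mul_distrib]
    simp only [Finset.prod_ite_eq', Finset.mem_univ, if_true]
    rw [← zpow_add, hw2, hw1, sgn_flip, add_neg_cancel, zpow_zero]
  have hc1 := const_mem hC (k + 2) x
  have hd1 := hG g (k + 2) _ hc1 0 true
  have he1 := (hZ _ hd1 ζ).2 hζ
  have hc2 := (hZ _ hc1 ζ).2 hζ
  have he2 := hG g (k + 2) _ hc2 0 true
  have heq := hstep _ he1 _ he2 (by
    intro v hv
    by_cases h : v = w2
    · have h0 : v 0 = false := by rw [h, hw2]; simp
      simp [h0]
    · have h2 : ζ v = 1 := by
        have : v ≠ w1 := hv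
        simp [ζ, this, h]
      by_cases h0 : v 0 = true
      · simp [h0, h2]
      · simp [h0, h2])
  have h3 := congrFun heq w1
  have h4 : w1 0 = true := rfl
  have h5 : ζ w1 = z := by simp [ζ]
  simp only [h4, if_true, h5] at h3
  exact h3.symm

/-- the factor system and its properties -/
theorem tower_of_haar (k : ℕ) : ∀ (X : Type u) [TopologicalSpace X] [MeasurableSpace X]
    [BorelSpace X] (C : ∀ n, Set (Cube n → X)) (μ : Measure X),
    IsCompactNilspace C → IsStep k C → IsHaar k X C μ →
    ∀ (G : Type u) [Group G] [MulAction G X] [ContinuousConstSMul G X],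
      (∀ g : G, IsTranslation C (fun x => g • x)) → IsTower k G X := by
  induction k with
  | zero =>
    intro X _ _ _ C μ hC hst hμ G _ _ _ hG
    exact hμ.1
  | succ k ih =>
    intro X _ _ _ C μ hC hst hμ G _ _ _ hG
    obtain ⟨hμp, Y, _, _, _, D, π, Z, _, _, _, _, _, _, _, hD, hDst, hπc, hπs, hπD, hrel, hπZ,
      hfree, hZC, hZμ, hμY⟩ := hμ
    have := hD.compact
    have := hD.t2
    have := hD.secondCountable
    have := hC.compact
    have hcomm : ∀ (g : G) (z : Z) (x : X), g • z • x = z • g • x := fun g z x =>
      smul_comm_of_step hC.nil hst hG (hZC (k + 2)) g z x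
    have hwd : ∀ (g : G) (x y : X), π x = π y → π (g • x) = π (g • y) := by
      intro g x y h
      obtain ⟨z, rfl⟩ := (hπZ x y).1 h
      exact (hπZ _ _).2 ⟨z, hcomm g z x⟩
    let r : Y → X := Function.surjInv hπs
    have hr : ∀ y, π (r y) = y := Function.surjInv_eq hπs
    letI actY : MulAction G Y :=
      { smul := fun g y => π (g • r y)
        one_smul := fun y => by
          show π ((1 : G) • r y) = y
          rw [one_smul, hr]
        mul_smul := fun g h y => by
          show π ((g * h) • r y) = π (g • r (π (h • r y)))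
          rw [mul_smul]
          exact hwd g _ _ (hr _).symm }
    have hπG : ∀ (g : G) (x : X), π (g • x) = g • π x := by
      intro g x
      show π (g • x) = π (g • r (π x))
      exact hwd g _ _ (hr _).symm
    have hquot : IsQuotientMap π := hπc.isClosedMap.isQuotientMap hπc hπs
    have contY : ContinuousConstSMul G Y := by
      constructor
      intro g
      rw [hquot.continuous_iff]
      have : (fun y : Y => g • y) ∘ π = fun x => π (g • x) := by
        funext x
        exact (hπG g x).symm
      rw [this]
      exact hπc.comp (continuous_const_smul g)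
    refine ⟨Y, inferInstance, inferInstance, inferInstance, inferInstance, actY, contY, Z,
      inferInstance, inferInstance, inferInstance, inferInstance, inferInstance, inferInstance,
      inferInstance, π, hπc, hπG, hπZ, hfree, hcomm, ?_, ?_⟩
    · intro x c c' z hc hc' hz
      have hcl : closure (MulAction.orbit (HK (k + 2) G) (fun _ => x : Cube (k + 2) → X)) ⊆
          C (k + 2) := by
        apply closure_minimal _ (hC.closed _)
        rintro _ ⟨h, rfl⟩
        exact (HK_cubes (by omega) hG _ h.2).1 _ (const_mem hC.nil _ x)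
      have h1 : c' = fun v => z v • c v := funext hz
      have h2 := (hZC (k + 2) c (hcl hc) z).1 (h1 ▸ hcl hc')
      exact (mem_Dcubes_top z).1 h2
    · apply ih Y D (μ.map π) hD hDst hμY G
      intro g n d hd i b
      obtain ⟨c, hc, rfl⟩ := (hπD n d).1 hd
      refine (hπD n _).2 ⟨_, hG g n c hc i b, ?_⟩
      funext v
      simp only [Function.comp]
      split_ifs
      · exact (hπG _ _).symm
      · rfl

end Pool.W508.NS
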