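import Pool.Agent.W508.NS.Defs

/-!
# Statements of the lemmas (subtasks NS-*) for MP_913761_an
-/

open MeasureTheory Topology Set

namespace Pool.W508.NS

universe u

/-- NS-PROD: products of towers, acted on by subgroups of the product group -/
def S_prod : Prop :=
  ∀ (k n : ℕ) (G N : Type u) [Group G] [TopologicalSpace N] [CompactSpace N] [T2Space N]
    [SecondCountableTopology N] [MulAction G N] [ContinuousConstSMul G N],
    IsTower k G N → ∀ H : Subgroup (Cube n → G), IsTower k H (Cube n → N)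

/-- NS-MIN: orbit closures are minimal -/
def S_min : Prop :=
  ∀ (k : ℕ) (G N : Type u) [Group G] [TopologicalSpace N] [CompactSpace N] [T2Space N]
    [SecondCountableTopology N] [MulAction G N] [ContinuousConstSMul G N],
    IsTower k G N → ∀ x y : N, y ∈ closure (MulAction.orbit G x) →
      x ∈ closure (MulAction.orbit G y)

/-- NS-LIFTU: uniqueness of the Haar lift of a uniquely ergodic system -/
def S_liftU : Prop :=
  ∀ (H K N N' : Type u) [Group H] [Group K] [TopologicalSpace K] [IsTopologicalGroup K]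
    [CompactSpace K] [T2Space K]
    [TopologicalSpace N] [CompactSpace N] [T2Space N] [SecondCountableTopology N]
    [MeasurableSpace N] [BorelSpace N]
    [TopologicalSpace N'] [CompactSpace N'] [T2Space N'] [SecondCountableTopology N']
    [MeasurableSpace N'] [BorelSpace N']
    [MulAction H N] [ContinuousConstSMul H N] [MulAction H N'] [ContinuousConstSMul H N']
    [MulAction K N] [ContinuousSMul K N] (q : N → N') (E : Set N) (C : Set N'),
    Continuous q → (∀ (h : H) (x : N), q (h • x) = h • q x) → IsClosed E →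
    (∀ x ∈ E, q x ∈ C) →
    (∀ x ∈ E, ∀ k : K, k • x ∈ E) →
    (∀ x ∈ E, ∀ y ∈ E, q x = q y ↔ ∃ k : K, y = k • x) →
    AtMostOne (acts H N') C → AtMostOne (acts H N ∪ acts K N) E

/-- NS-LIFTE: existence of the Haar lift -/
def S_liftE : Prop :=
  ∀ (H K N N' : Type u) [Group H] [Group K] [TopologicalSpace K] [IsTopologicalGroup K]
    [CompactSpace K] [T2Space K]
    [TopologicalSpace N] [CompactSpace N] [T2Space N] [SecondCountableTopology N]
    [MeasurableSpace N] [BorelSpace N]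
    [TopologicalSpace N'] [CompactSpace N'] [T2Space N'] [SecondCountableTopology N']
    [MeasurableSpace N'] [BorelSpace N']
    [MulAction H N] [ContinuousConstSMul H N] [MulAction H N'] [ContinuousConstSMul H N']
    [MulAction K N] [ContinuousSMul K N] (q : N → N') (E : Set N) (C : Set N'),
    Continuous q → (∀ (h : H) (x : N), q (h • x) = h • q x) → IsClosed E →
    (∀ (h : H) (k : K) (x : N), h • k • x = k • h • x) →
    q '' E = C →
    (∀ x ∈ E, ∀ k : K, k • x ∈ E) → (∀ x ∈ E, ∀ h : H, h • x ∈ E) →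
    (∀ x ∈ E, ∀ y ∈ E, q x = q y ↔ ∃ k : K, y = k • x) →
    (∃ μ, IsInvOn (acts H N') C μ) → ∃ μ, IsInvOn (acts H N ∪ acts K N) E μ

/-- NS-CONST: a.e. invariant functions of a uniquely ergodic system are a.e. constant -/
def S_const : Prop :=
  ∀ (N : Type u) [MeasurableSpace N] (𝒯 : Set (N → N)) (E : Set N) (μ : Measure N),
    (∀ t ∈ 𝒯, Measurable t) → IsInvOn 𝒯 E μ → AtMostOne 𝒯 E →
    ∀ f : N → ℂ, Measurable f → (∃ B : ℝ, ∀ x, ‖f x‖ ≤ B) →
      (∀ t ∈ 𝒯, ∀ᵐ x ∂μ, f (t x) = f x) → ∃ c : ℂ, ∀ᵐ x ∂μ, f x = c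

/-- NS-WEAK: invariant measures carried by shrinking neighbourhoods of a uniquely ergodic fibre
become indistinguishable -/
def S_weak : Prop :=
  ∀ (N P : Type u) [TopologicalSpace N] [CompactSpace N] [T2Space N] [SecondCountableTopology N]
    [MeasurableSpace N] [BorelSpace N] [TopologicalSpace P] [CompactSpace P] [T2Space P]
    (𝒯 : Set (N → N)) (E : Set N) (p : N → P) (x0 : P),
    (∀ t ∈ 𝒯, Continuous t) → IsClosed E → Continuous p →
    AtMostOne 𝒯 (E ∩ p ⁻¹' {x0}) →
    ∀ (φ : N → ℂ), Continuous φ → ∀ ε : ℝ, 0 < ε → ∃ U ∈ 𝓝 x0, ∀ μ ν : Measure N,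
      IsInvOn 𝒯 (E ∩ p ⁻¹' U) μ → IsInvOn 𝒯 (E ∩ p ⁻¹' U) ν →
      ‖∫ x, φ x ∂μ - ∫ x, φ x ∂ν‖ ≤ ε

/-- NS-BAIRE: a point over which the fibre of the cube space is one orbit closure -/
def S_baire : Prop :=
  ∀ (n : ℕ) (G N : Type u) [Group G] [TopologicalSpace N] [CompactSpace N] [T2Space N]
    [SecondCountableTopology N] [MulAction G N] [ContinuousConstSMul G N] (y : N),
    ∃ y0 ∈ closure (MulAction.orbit G y),
      ∀ c ∈ closure (MulAction.orbit (HK n G) (fun _ => y : Cube n → N)), c (v0 n) = y0 →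
        c ∈ closure (MulAction.orbit (HK0 n G) (fun _ => y0 : Cube n → N))

/-- the extended cube space -/
def EE (n : ℕ) (G K : Type*) {N : Type*} [Group G] [CommGroup K] [TopologicalSpace N]
    [MulAction G N] [MulAction K N] (x : N) : Set (Cube n → N) :=
  {e | ∃ ζ : Kalt n K, ∃ c ∈ closure (MulAction.orbit (HK n G) (fun _ => x : Cube n → N)),
    e = ζ • c}

/-- NS-E: facts about the extended cube space -/
def S_E : Prop :=
  ∀ (n : ℕ) (G K N N' : Type u) [Group G] [CommGroup K] [TopologicalSpace K]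
    [IsTopologicalGroup K] [CompactSpace K] [T2Space K]
    [TopologicalSpace N] [CompactSpace N] [T2Space N]
    [TopologicalSpace N'] [CompactSpace N'] [T2Space N']
    [MulAction G N] [ContinuousConstSMul G N] [MulAction G N'] [ContinuousConstSMul G N']
    [MulAction K N] [ContinuousSMul K N] (π : N → N') (x : N),
    Continuous π → (∀ (g : G) (x : N), π (g • x) = g • π x) →
    (∀ (g : G) (k : K) (x : N), g • k • x = k • g • x) →
    (∀ (k : K) (y : N), π (k • y) = π y) →
    (∀ y ∈ closure (MulAction.orbit G x), ∀ k : K, k • y ∈ closure (MulAction.orbit G x)) →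
    (∀ y ∈ closure (MulAction.orbit G x), ∀ y' ∈ closure (MulAction.orbit G x),
      π y = π y' → ∃ k : K, y' = k • y) →
    (∀ (c c' : Cube n → N) (z : Cube n → K),
        c ∈ closure (MulAction.orbit (HK n G) (fun _ => x : Cube n → N)) →
        c' ∈ closure (MulAction.orbit (HK n G) (fun _ => x : Cube n → N)) →
        (∀ v, c' v = z v • c v) → altProd z = 1) →
    IsClosed (EE n G K x) ∧
    (∀ e ∈ EE n G K x, ∀ v, e v ∈ closure (MulAction.orbit G x)) ∧
    (fun (e : Cube n → N) v => π (e v)) '' (EE n G K x) =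
      closure (MulAction.orbit (HK n G) (fun _ => π x : Cube n → N')) ∧
    (∀ e ∈ EE n G K x, ∀ k : Kalt n K, k • e ∈ EE n G K x) ∧
    (∀ e ∈ EE n G K x, ∀ h : HK n G, h • e ∈ EE n G K x) ∧
    (∀ e ∈ EE n G K x, ∀ e' ∈ EE n G K x,
      ((fun v => π (e v)) = (fun v => π (e' v)) ↔ ∃ k : Kalt n K, e' = k • e))

/-- NS-EXT: an invariant measurable eigenfunction for the fibre group has trivial character -/
def S_ext : Prop :=
  ∀ (n : ℕ) (G K N : Type u) [Group G] [CommGroup K] [TopologicalSpace K]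
    [IsTopologicalGroup K] [CompactSpace K] [T2Space K]
    [TopologicalSpace N] [CompactSpace N] [T2Space N] [SecondCountableTopology N]
    [MeasurableSpace N] [BorelSpace N]
    [MulAction G N] [ContinuousConstSMul G N] [MulAction K N] [ContinuousSMul K N]
    (X : Set N) (E : Set (Cube n → N)) (m : Measure N) (M : Measure (Cube n → N)) (x0 : N)
    (χ : ContinuousMonoidHom K Circle) (f : N → ℂ),
    2 ≤ n → IsClosed X → IsClosed E → (∀ e ∈ E, ∀ v, e v ∈ X) →
    (∀ x ∈ X, X ⊆ closure (MulAction.orbit G x)) →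
    (∀ x ∈ X, ∀ g : G, g • x ∈ X) → (∀ x ∈ X, ∀ k : K, k • x ∈ X) →
    IsInvOn (acts G N ∪ acts K N) X m → AtMostOne (acts G N ∪ acts K N) X →
    IsInvOn (acts (HK n G) (Cube n → N) ∪ acts (Kalt n K) (Cube n → N)) E M →
    AtMostOne (acts (HK n G) (Cube n → N) ∪ acts (Kalt n K) (Cube n → N)) E →
    x0 ∈ X →
    AtMostOne (acts (HK0 n G) (Cube n → N) ∪ acts (Kalt0 n K) (Cube n → N))
      (E ∩ (fun e => e (v0 n)) ⁻¹' {x0}) →
    Measurable f → (∀ x, ‖f x‖ ≤ 1) → (∀ᵐ x ∂m, ‖f x‖ = 1) →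
    (∀ g : G, ∀ᵐ x ∂m, f (g • x) = f x) →
    (∀ (k : K) (x : N), f (k • x) = (χ k : ℂ) * f x) → ∀ k, χ k = 1

/-- NS-UE: without nontrivial invariant eigenfunctions, unique ergodicity lifts -/
def S_ue : Prop :=
  ∀ (G K N : Type u) [Group G] [CommGroup K] [TopologicalSpace K]
    [IsTopologicalGroup K] [CompactSpace K] [T2Space K]
    [TopologicalSpace N] [CompactSpace N] [T2Space N] [SecondCountableTopology N]
    [MeasurableSpace N] [BorelSpace N]
    [MulAction G N] [ContinuousConstSMul G N] [MulAction K N] [ContinuousSMul K N]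
    (X : Set N) (m : Measure N),
    IsClosed X → (∀ x ∈ X, ∀ g : G, g • x ∈ X) → (∀ x ∈ X, ∀ k : K, k • x ∈ X) →
    (∀ (g : G) (k : K) (x : N), g • k • x = k • g • x) →
    IsInvOn (acts G N ∪ acts K N) X m → AtMostOne (acts G N ∪ acts K N) X →
    (∀ (χ : ContinuousMonoidHom K Circle) (f : N → ℂ), Measurable f → (∀ x, ‖f x‖ ≤ 1) →
      (∀ᵐ x ∂m, ‖f x‖ = 1) → (∀ g : G, ∀ᵐ x ∂m, f (g • x) = f x) →
      (∀ (k : K) (x : N), f (k • x) = (χ k : ℂ) * f x) → ∀ k, χ k = 1) →
    AtMostOne (acts G N) X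

end Pool.W508.NS
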